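import Pool.Agent.NH97.OD.Stm

/-!
# Project OD, part BAR: the barrier
-/

set_option autoImplicit false

open scoped ContDiff

namespace Pool.Agent.NH97.OD

open Set

namespace BAR

/-- a function which is nonnegative at `a` and whose derivative is nonnegative where it lies in
`[-ε, 0]` stays nonnegative -/
theorem stay {f f' : ℝ → ℝ} {a b ε : ℝ} (hab : a ≤ b) (hε : 0 < ε)
    (hf : ∀ r ∈ Icc a b, HasDerivAt f (f' r) r) (ha : 0 ≤ f a)
    (hd : ∀ r ∈ Icc a b, -ε ≤ f r → f r ≤ 0 → 0 ≤ f' r) : 0 ≤ f b := by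
  by_contra hneg
  push Not at hneg
  have hcont : ContinuousOn f (Icc a b) := fun r hr => (hf r hr).continuousAt.continuousWithinAt
  -- the last point with `0 ≤ f`
  have hS : IsCompact (Icc a b ∩ f ⁻¹' Ici 0) :=
    isCompact_Icc.of_isClosed_subset (hcont.preimage_isClosed_of_isClosed isClosed_Icc isClosed_Ici)
      inter_subset_left
  obtain ⟨r0, hr0, hr0max⟩ := hS.exists_isGreatest ⟨a, ⟨le_rfl, hab⟩, ha⟩
  have hr0b : r0 < b := by
    rcases lt_or_eq_of_le hr0.1.2 with h | h
    · exact h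
    · exfalso
      have h1 : 0 ≤ f r0 := hr0.2
      rw [h] at h1
      linarith
  have hlt : ∀ r, r0 < r → r ≤ b → f r < 0 := by
    intro r h1 h2
    by_contra hc
    push Not at hc
    have := hr0max ⟨⟨hr0.1.1.trans h1.le, h2⟩, hc⟩
    linarith
  -- the first point after `r0` with `f ≤ -ε`
  obtain ⟨r1, h01, h1b, hmid⟩ : ∃ r1, r0 < r1 ∧ r1 ≤ b ∧ ∀ r ∈ Ioo r0 r1, -ε ≤ f r := by
    by_cases hT : (Icc r0 b ∩ f ⁻¹' Iic (-ε)).Nonempty
    · have hcont' : ContinuousOn f (Icc r0 b) := hcont.mono (Icc_subset_Icc_left hr0.1.1)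
      have hTc : IsCompact (Icc r0 b ∩ f ⁻¹' Iic (-ε)) :=
        isCompact_Icc.of_isClosed_subset
          (hcont'.preimage_isClosed_of_isClosed isClosed_Icc isClosed_Iic) inter_subset_left
      obtain ⟨r1, hr1, hr1min⟩ := hTc.exists_isLeast hT
      refine ⟨r1, ?_, hr1.1.2, ?_⟩
      · rcases lt_or_eq_of_le hr1.1.1 with h | h
        · exact h
        · exfalso
          have h1 : f r1 ≤ -ε := hr1.2
          have h2 : 0 ≤ f r0 := hr0.2
          rw [← h] at h1
          linarith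
      · intro r hr
        by_contra hc
        push Not at hc
        have := hr1min ⟨⟨hr.1.le, hr.2.le.trans hr1.1.2⟩, hc.le⟩
        linarith [hr.2]
    · refine ⟨b, hr0b, le_rfl, fun r hr => ?_⟩
      by_contra hc
      push Not at hc
      exact hT ⟨r, ⟨hr.1.le, hr.2.le⟩, hc.le⟩
  have hsub : Icc r0 r1 ⊆ Icc a b := Icc_subset_Icc hr0.1.1 h1b
  have hmono : MonotoneOn f (Icc r0 r1) := by
    refine monotoneOn_of_deriv_nonneg (convex_Icc r0 r1) (hcont.mono hsub) ?_ ?_
    · rw [interior_Icc]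
      intro r hr
      exact (hf r (hsub (Ioo_subset_Icc_self hr))).differentiableAt.differentiableWithinAt
    · rw [interior_Icc]
      intro r hr
      have hr' := hsub (Ioo_subset_Icc_self hr)
      rw [(hf r hr').deriv]
      exact hd r hr' (hmid r hr) (hlt r hr.1 (hr.2.le.trans h1b)).le
  have h2 := hmono (left_mem_Icc.2 h01.le) (right_mem_Icc.2 h01.le) h01.le
  have h3 := hlt r1 h01 h1b
  have h4 : 0 ≤ f r0 := hr0.2
  linarith

end BAR

/-- OD-6 BAR: the barrier -/
theorem t_BAR : S_BAR := by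
  intro m P hP hm κ η σ σ' χ R hη hχ hband p t ht hσ hσ' hc
  have hx : ∀ r, HasDerivAt (fun r => P r p) (-m (P r p, r)) r := fun r => hP.deriv r p
  have hs : ∀ r, HasDerivAt (fun r => P r p + r) (-m (P r p, r) + 1) r :=
    fun r => (hx r).add (hasDerivAt_id' r)
  have hsm : Monotone (fun r => P r p + r) :=
    monotone_of_deriv_nonneg (fun r => (hs r).differentiableAt) (fun r => by
      rw [(hs r).deriv]
      show 0 ≤ -m (P r p, r) + 1
      linarith [(abs_le.1 (hm (P r p, r))).2])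
  have hinit : P p.2 p = p.1 := hP.init p
  have hrange : ∀ r ∈ Icc p.2 t, P r p + r ∈ Icc σ σ' := by
    intro r hr
    have h1 : P p.2 p + p.2 ≤ P r p + r := hsm hr.1
    have h2 : P r p + r ≤ P t p + t := hsm hr.2
    rw [hinit] at h1
    exact ⟨hσ.trans h1, h2.trans hσ'⟩
  have hf : ∀ r ∈ Icc p.2 t, HasDerivAt (fun r => P r p - r - κ - η / 4 - R (P r p + r))
      (-m (P r p, r) - 1 - (χ (P r p + r) - 1) * (-m (P r p, r) + 1)) r := by
    intro r hr
    have h1 := (hχ _ (hrange r hr)).2.2.2.2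
    have h2 : HasDerivAt (fun r => R (P r p + r))
        ((χ (P r p + r) - 1) * (-m (P r p, r) + 1)) r :=
      HasDerivAt.comp (h₂ := R) (h := fun r => P r p + r) r h1 (hs r)
    exact ((((hx r).sub (hasDerivAt_id' r)).sub_const κ).sub_const (η / 4)).sub h2
  have hfin := BAR.stay (ε := η / 20) ht (by positivity) hf (by
      have h1 := (hχ _ (hrange p.2 ⟨le_rfl, ht⟩)).2.2.2.1
      rw [hinit] at h1
      show 0 ≤ P p.2 p - p.2 - κ - η / 4 - R (P p.2 p + p.2)
      rw [hinit]
      linarith) (by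
      intro r hr h1 h2
      obtain ⟨c1, c2, c3, c4, _⟩ := hχ _ (hrange r hr)
      obtain ⟨s1, s2⟩ := hrange r hr
      have h3 := hband (P r p) r s1 s2 (by linarith) (by linarith)
      rw [h3]
      nlinarith)
  have h1 := (hχ _ (hrange t ⟨ht, le_rfl⟩)).2.2.1
  linarith

end Pool.Agent.NH97.OD
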