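import Pool.Agent.NH97.OD.Stm

/-!
# Project OD, part OD-7: cut-off functions with small defect
-/

set_option autoImplicit false

open scoped ContDiff

namespace Pool.Agent.NH97.OD.CHI

open Set MeasureTheory intervalIntegral

theorem nonneg_int {f : ℝ → ℝ} (h0 : ∀ x, 0 ≤ f x) {a b : ℝ} (hab : a ≤ b) :
    0 ≤ ∫ x in a..b, f x :=
  intervalIntegral.integral_nonneg hab fun x _ => h0 x

theorem le_len {f : ℝ → ℝ} (hf : Continuous f) (h1 : ∀ x, f x ≤ 1) {a b : ℝ} (hab : a ≤ b) :
    ∫ x in a..b, f x ≤ b - a := by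
  have h2 : ∫ x in a..b, f x ≤ ∫ _ in a..b, (1 : ℝ) :=
    intervalIntegral.integral_mono_on hab (hf.intervalIntegrable _ _)
      (continuous_const.intervalIntegrable _ _) fun x _ => h1 x
  rw [intervalIntegral.integral_const, smul_eq_mul, mul_one] at h2
  exact h2

theorem zero_int {f : ℝ → ℝ} {a b : ℝ} (hab : a ≤ b) (h : ∀ x ∈ Icc a b, f x = 0) :
    ∫ x in a..b, f x = 0 := by
  rw [intervalIntegral.integral_congr (g := fun _ => (0 : ℝ)) (fun x hx => ?_)]
  · simp
  · rw [uIcc_of_le hab] at hx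
    exact h x hx

end Pool.Agent.NH97.OD.CHI

namespace Pool.Agent.NH97.OD

open Set MeasureTheory intervalIntegral CHI

theorem t_CHI : S_CHI := by
  intro σ σ' ε hσ hε
  obtain ⟨h, hh⟩ : ∃ h : ℝ, h = (σ' - σ) / 2 := ⟨_, rfl⟩
  obtain ⟨d, hd⟩ : ∃ d : ℝ, d = min (ε / 8) (h / 4) := ⟨_, rfl⟩
  have h0 : 0 < h := by rw [hh]; linarith
  have d0 : 0 < d := by rw [hd]; exact lt_min (by linarith) (by linarith)
  have d1 : d ≤ ε / 8 := by rw [hd]; exact min_le_left _ _
  have d2 : d ≤ h / 4 := by rw [hd]; exact min_le_right _ _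
  let χ : ContDiffBump ((σ + σ') / 2) := ⟨h - 2 * d, h - d, by linarith, by linarith⟩
  have hsub : tsupport (χ : ℝ → ℝ) ⊆ Ioo σ σ' := by
    rw [χ.tsupport_eq, Real.closedBall_eq_Icc]
    intro x hx
    have e1 : χ.rOut = h - d := rfl
    rw [e1] at hx
    exact ⟨by linarith [hx.1], by linarith [hx.2]⟩
  have hc : Continuous (χ : ℝ → ℝ) := χ.continuous
  let f : ℝ → ℝ := fun x => 1 - χ x
  have hf : Continuous f := continuous_const.sub hc
  have f0 : ∀ x, 0 ≤ f x := fun x => sub_nonneg.2 χ.le_one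
  have f1 : ∀ x, f x ≤ 1 := fun x => by
    have := χ.nonneg (x := x)
    simp only [f]
    linarith
  have fz : ∀ x ∈ Icc (σ + 2 * d) (σ' - 2 * d), f x = 0 := by
    intro x hx
    have h1 : x ∈ Metric.closedBall ((σ + σ') / 2) χ.rIn := by
      have e1 : χ.rIn = h - 2 * d := rfl
      rw [Real.closedBall_eq_Icc, e1]
      exact ⟨by linarith [hx.1], by linarith [hx.2]⟩
    simp only [f, χ.one_of_mem_closedBall h1, sub_self]
  refine ⟨χ, fun s => ∫ x in s..σ', f x, χ.contDiff, fun s => ⟨χ.nonneg, χ.le_one⟩,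
    χ.hasCompactSupport, hsub, fun s => ?_, fun s hs => ⟨nonneg_int f0 hs.2, ?_⟩⟩
  · have h1 := intervalIntegral.integral_hasDerivAt_left (hf.intervalIntegrable s σ')
      (hf.stronglyMeasurableAtFilter _ _) hf.continuousAt
    have e1 : -f s = χ s - 1 := by simp only [f]; ring
    rw [e1] at h1
    exact h1
  · have i1 : ∀ a b : ℝ, IntervalIntegrable f volume a b := fun a b => hf.intervalIntegrable a b
    have a1 := integral_add_adjacent_intervals (i1 σ s) (i1 s σ')
    have a2 := integral_add_adjacent_intervals (i1 σ (σ + 2 * d)) (i1 (σ + 2 * d) σ')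
    have a3 := integral_add_adjacent_intervals (i1 (σ + 2 * d) (σ' - 2 * d)) (i1 (σ' - 2 * d) σ')
    have b1 := nonneg_int f0 hs.1
    have b2 := le_len hf f1 (show σ ≤ σ + 2 * d by linarith)
    have b3 := le_len hf f1 (show σ' - 2 * d ≤ σ' by linarith)
    have b4 := zero_int (show σ + 2 * d ≤ σ' - 2 * d by linarith) fz
    show ∫ x in s..σ', f x ≤ ε
    linarith

end Pool.Agent.NH97.OD
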