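import Pool.Agent.NH97.OD.Stm

/-!
# OD-18 CRS: two leaves meet in the next stage
-/

set_option autoImplicit false
set_option linter.unusedVariables false

open scoped ContDiff

namespace Pool.Agent.NH97.OD

open Set

namespace CRS

theorem adm_sw {σ : ℝ} {m : ℝ × ℝ → ℝ} (h : Adm σ m) : Adm σ (sw m) := by
  have hh : HasCompactSupport (fun q : ℝ × ℝ => m (q.2, q.1)) :=
    h.cpt.comp_homeomorph (Homeomorph.prodComm ℝ ℝ)
  refine ⟨?_, ?_, ?_, ?_⟩
  · have h2 : ContDiff ℝ ∞ (fun q : ℝ × ℝ => m (q.2, q.1)) :=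
      h.smooth.comp (contDiff_snd.prodMk contDiff_fst)
    exact h2.neg
  · exact hh.neg
  · intro p
    have := h.le (p.2, p.1)
    simpa [sw, abs_neg] using this
  · intro p hp
    have hs : tsupport (sw m) ⊆ (fun q : ℝ × ℝ => ((q.2, q.1) : ℝ × ℝ)) ⁻¹' (tsupport m) := by
      apply closure_minimal
      · intro q hq
        apply subset_tsupport
        simp only [Function.mem_support, sw, ne_eq, neg_eq_zero] at hq ⊢
        exact hq
      · exact (isClosed_tsupport m).preimage (continuous_snd.prodMk continuous_fst)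
    have h3 := h.supp _ (hs hp)
    refine ⟨h3.2.1, h3.1, ?_⟩
    have := h3.2.2
    simp only at this
    linarith

end CRS

theorem t_CRS (h1 : S_UNIQ) (h2 : S_POS) (h3 : S_LOC) : S_CRS := by
  intro σ σ' m χ R N K η P Q P' Q' hS hP hQ hP' hQ' hσ cv cu hcv hcvu hcu hN
  have hpos := hS.pos
  refine ⟨((σ + cu) / 2, (σ - cv) / 2), ⟨?_, ?_, ?_⟩, ?_, ?_⟩
  · show 0 ≤ (σ + cu) / 2
    linarith
  · show 0 ≤ (σ - cv) / 2
    linarith
  · show (σ + cu) / 2 + (σ - cv) / 2 ≤ σ'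
    linarith
  · have e1 : P' 0 ((σ + cu) / 2, (σ - cv) / 2) = P' 0 ((σ + cu) / 2, (σ - cu) / 2) := by
      apply h1.2 (ext m χ N) P' hP' ((σ + cu) / 2) ((σ - cu) / 2) ((σ - cv) / 2) (by linarith)
      intro t ht
      have ht1 := ht.1
      have ht2 := ht.2
      rw [hS.above ((σ + cu) / 2, t) (by show σ ≤ (σ + cu) / 2 + t; linarith)]
      rw [hN ((σ + cu) / 2 - t) (by linarith) (by linarith), mul_zero]
    rw [e1]
    symm
    apply h3 σ σ σ' m (ext m χ N) P P' hS.adm hS.adm' hP hP'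
    · intro p hp
      exact (hS.below p hp.2.2).symm
    · refine ⟨?_, ?_, ?_⟩
      · show 0 ≤ (σ + cu) / 2
        linarith
      · show 0 ≤ (σ - cu) / 2
        linarith
      · show (σ + cu) / 2 + (σ - cu) / 2 ≤ σ
        linarith
    · refine ⟨le_refl _, ?_⟩
      show 0 ≤ (σ - cu) / 2
      linarith
  · show Q' 0 ((σ - cv) / 2, (σ + cu) / 2) = Q 0 ((σ - cv) / 2, (σ + cv) / 2)
    have e1 : Q' 0 ((σ - cv) / 2, (σ + cu) / 2) = Q' 0 ((σ - cv) / 2, (σ + cv) / 2) := by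
      apply h1.2 (sw (ext m χ N)) Q' hQ' ((σ - cv) / 2) ((σ + cv) / 2) ((σ + cu) / 2) (by linarith)
      intro t ht
      have ht1 := ht.1
      have ht2 := ht.2
      show -(ext m χ N (t, (σ - cv) / 2)) = 0
      rw [hS.above (t, (σ - cv) / 2) (by show σ ≤ t + (σ - cv) / 2; linarith)]
      rw [hN (t - (σ - cv) / 2) (by linarith) (by linarith), mul_zero, neg_zero]
    rw [e1]
    symm
    apply h3 σ σ σ' (sw m) (sw (ext m χ N)) Q Q' (CRS.adm_sw hS.adm) (CRS.adm_sw hS.adm') hQ hQ'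
    · intro p hp
      show -(m (p.2, p.1)) = -(ext m χ N (p.2, p.1))
      rw [hS.below (p.2, p.1) (by show p.2 + p.1 ≤ σ; linarith [hp.2.2])]
    · refine ⟨?_, ?_, ?_⟩
      · show 0 ≤ (σ - cv) / 2
        linarith
      · show 0 ≤ (σ + cv) / 2
        linarith
      · show (σ - cv) / 2 + (σ + cv) / 2 ≤ σ
        linarith
    · refine ⟨le_refl _, ?_⟩
      show 0 ≤ (σ + cv) / 2
      linarith

end Pool.Agent.NH97.OD
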