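import Pool.Agent.NH97.OD.Stm

/-!
# From the plane to the disc (OD-14)
-/

set_option autoImplicit false

open scoped ContDiff Topology

namespace Pool.Agent.NH97.OD

open Set

namespace DISC

/-- the map of the line onto the interval `(-1, 1)` -/
noncomputable def s (a : ℝ) : ℝ := a / √(1 + a ^ 2)

lemma pos (a : ℝ) : 0 < 1 + a ^ 2 := by positivity

lemma s_sq (a : ℝ) : s a ^ 2 = a ^ 2 / (1 + a ^ 2) := by
  rw [s, div_pow, Real.sq_sqrt (pos a).le]

lemma s_smooth : ContDiff ℝ ∞ s := by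
  unfold s
  refine contDiff_id.div ?_ fun x => (Real.sqrt_pos.2 (pos x)).ne'
  exact (contDiff_const.add (contDiff_id.pow 2)).sqrt fun x => (pos x).ne'

lemma s_deriv (a : ℝ) : ∃ c : ℝ, 0 < c ∧ HasDerivAt s c a := by
  have h0 := pos a
  have h1 : 0 < √(1 + a ^ 2) := Real.sqrt_pos.2 h0
  have h2 : HasDerivAt (fun x : ℝ => 1 + x ^ 2) (2 * a) a := by
    simpa using (hasDerivAt_pow 2 a).const_add 1
  have h3 := h2.sqrt h0.ne'
  have h4 := (hasDerivAt_id a).div h3 h1.ne'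
  refine ⟨_, ?_, h4⟩
  have h5 : √(1 + a ^ 2) ^ 2 = 1 + a ^ 2 := Real.sq_sqrt h0.le
  have h6 : (1 * √(1 + a ^ 2) - id a * (2 * a / (2 * √(1 + a ^ 2)))) / √(1 + a ^ 2) ^ 2 =
      1 / √(1 + a ^ 2) ^ 3 := by
    rw [id]
    field_simp
    rw [h5]; ring
  rw [h6]
  positivity

/-- the inverse of `s` -/
noncomputable def t (u : ℝ) : ℝ := u / √(1 - u ^ 2)

lemma t_s (a : ℝ) : t (s a) = a := by
  have h0 := pos a
  have h1 : 0 < √(1 + a ^ 2) := Real.sqrt_pos.2 h0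
  have h2 : 1 - s a ^ 2 = 1 / (1 + a ^ 2) := by
    rw [s_sq]; field_simp; ring
  rw [t, h2, Real.sqrt_div zero_le_one, Real.sqrt_one, s]
  field_simp

lemma s_t {u : ℝ} (hu : u ^ 2 < 1) : s (t u) = u := by
  have h0 : 0 < 1 - u ^ 2 := by linarith
  have h1 : 0 < √(1 - u ^ 2) := Real.sqrt_pos.2 h0
  have h2 : 1 + t u ^ 2 = 1 / (1 - u ^ 2) := by
    rw [t, div_pow, Real.sq_sqrt h0.le]; field_simp; ring
  rw [s, h2, Real.sqrt_div zero_le_one, Real.sqrt_one, t]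
  field_simp

lemma s_inj : Function.Injective s := fun a b h => by rw [← t_s a, h, t_s]

lemma disc_iff (a b : ℝ) : s a ^ 2 + s b ^ 2 < 1 ↔ |a * b| < 1 := by
  have ha := pos a
  have hb := pos b
  rw [s_sq, s_sq, div_add_div _ _ ha.ne' hb.ne', div_lt_one (by positivity), ← sq_lt_one_iff_abs_lt_one]
  constructor <;> intro h <;> nlinarith

/-- the smooth bijection of the plane onto the disc -/
noncomputable def f (F : ℝ × ℝ → ℝ × ℝ) (p : ℝ × ℝ) : ℝ × ℝ := (s (F p).1, s (F p).2)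

lemma f_smooth {F : ℝ × ℝ → ℝ × ℝ} (h : ContDiff ℝ ∞ F) : ContDiff ℝ ∞ (f F) :=
  (s_smooth.comp (contDiff_fst.comp h)).prodMk (s_smooth.comp (contDiff_snd.comp h))

lemma f_inj {F : ℝ × ℝ → ℝ × ℝ} (h : Function.Injective F) : Function.Injective (f F) := by
  intro p q hpq
  apply h
  simp only [f, Prod.mk.injEq] at hpq
  exact Prod.ext (s_inj hpq.1) (s_inj hpq.2)

lemma f_range {F : ℝ × ℝ → ℝ × ℝ} (h : range F = {q : ℝ × ℝ | |q.1 * q.2| < 1}) :
    range (f F) = Disc := by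
  ext q
  constructor
  · rintro ⟨p, rfl⟩
    have : F p ∈ range F := mem_range_self p
    rw [h] at this
    exact (disc_iff _ _).2 this
  · intro hq
    have hq' : q.1 ^ 2 + q.2 ^ 2 < 1 := hq
    have h1 : s (t q.1) = q.1 := s_t (by nlinarith [sq_nonneg q.2])
    have h2 : s (t q.2) = q.2 := s_t (by nlinarith [sq_nonneg q.1])
    have h3 : (t q.1, t q.2) ∈ range F := by
      rw [h]
      show |t q.1 * t q.2| < 1
      rw [← disc_iff, h1, h2]
      exact hq'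
    obtain ⟨p, hp⟩ := h3
    refine ⟨p, ?_⟩
    rw [f, hp]
    exact Prod.ext h1 h2

lemma f_deriv {F : ℝ × ℝ → ℝ × ℝ} (h : ContDiff ℝ ∞ F) (p : ℝ × ℝ)
    (hd : ∃ α β μ : ℝ, 0 < α ∧ 0 < β ∧ ∀ v : ℝ × ℝ,
      fderiv ℝ F p v = (α * (v.1 + μ * v.2), β * (-μ * v.1 + v.2))) :
    ∃ α β μ : ℝ, 0 < α ∧ 0 < β ∧ ∀ v : ℝ × ℝ,
      fderiv ℝ (f F) p v = (α * (v.1 + μ * v.2), β * (-μ * v.1 + v.2)) := by
  obtain ⟨α, β, μ, hα, hβ, hv⟩ := hd
  obtain ⟨c, hc, hc'⟩ := s_deriv (F p).1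
  obtain ⟨d, hd, hd'⟩ := s_deriv (F p).2
  refine ⟨c * α, d * β, μ, by positivity, by positivity, fun v => ?_⟩
  have hF : HasFDerivAt F (fderiv ℝ F p) p := ((h.differentiable (by simp)) p).hasFDerivAt
  have h1 := hc'.comp_hasFDerivAt p hF.fst
  have h2 := hd'.comp_hasFDerivAt p hF.snd
  have h3 : HasFDerivAt (f F) _ p := h1.prodMk h2
  rw [h3.fderiv]
  simp only [ContinuousLinearMap.prod_apply, smul_apply,
    ContinuousLinearMap.comp_apply, ContinuousLinearMap.coe_fst', ContinuousLinearMap.coe_snd', hv,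
    smul_eq_mul, Prod.mk.injEq]
  constructor <;> ring

/-- the inverse map -/
lemma inverse {f : ℝ × ℝ → ℝ × ℝ} (h : ContDiff ℝ ∞ f) (hi : Function.Injective f) (p : ℝ × ℝ)
    {α β μ : ℝ} (hα : 0 < α) (hβ : 0 < β)
    (hv : ∀ v : ℝ × ℝ, fderiv ℝ f p v = (α * (v.1 + μ * v.2), β * (-μ * v.1 + v.2))) :
    ContDiffAt ℝ ∞ (Function.invFun f) (f p) ∧
    ∀ w : ℝ × ℝ, fderiv ℝ (Function.invFun f) (f p) w =
      ((w.1 / α - μ * w.2 / β) / (1 + μ ^ 2), (μ * w.1 / α + w.2 / β) / (1 + μ ^ 2)) := by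
  have hD : 0 < 1 + μ ^ 2 := pos μ
  have hinj : Function.Injective (fderiv ℝ f p) := by
    rw [injective_iff_map_eq_zero]
    intro v hv0
    rw [hv v] at hv0
    have h1 := congrArg Prod.fst hv0
    have h2 := congrArg Prod.snd hv0
    simp only [Prod.fst_zero, Prod.snd_zero, mul_eq_zero, hα.ne', hβ.ne', false_or] at h1 h2
    have h3 : v.2 * (1 + μ ^ 2) = 0 := by linear_combination h2 + μ * h1
    have h4 : v.2 = 0 := by
      rcases mul_eq_zero.1 h3 with h | h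
      · exact h
      · exact absurd h hD.ne'
    have h5 : v.1 = 0 := by rw [h4] at h1; simpa using h1
    exact Prod.ext h5 h4
  set L : (ℝ × ℝ) ≃L[ℝ] (ℝ × ℝ) :=
    (LinearEquiv.ofInjectiveEndo (fderiv ℝ f p : (ℝ × ℝ) →ₗ[ℝ] (ℝ × ℝ)) hinj).toContinuousLinearEquiv
    with hL
  have hLf : (L : (ℝ × ℝ) →L[ℝ] (ℝ × ℝ)) = fderiv ℝ f p := by
    ext <;> rfl
  have hdiff : HasFDerivAt f (fderiv ℝ f p) p := ((h.differentiable (by simp)) p).hasFDerivAt
  have hf' : HasFDerivAt f (L : (ℝ × ℝ) →L[ℝ] (ℝ × ℝ)) p := by rw [hLf]; exact hdiff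
  have hcd : ContDiffAt ℝ ∞ f p := h.contDiffAt
  have hloc := hcd.to_localInverse hf' (by simp)
  have hev := (hcd.hasStrictFDerivAt' hf' (by simp)).eventually_right_inverse
  have heq : Function.invFun f =ᶠ[𝓝 (f p)] hcd.localInverse hf' (by simp) := by
    filter_upwards [hev] with y hy
    have : Function.invFun f (f (hcd.localInverse hf' (by simp) y)) =
        hcd.localInverse hf' (by simp) y := Function.leftInverse_invFun hi _
    rw [← this]
    congr 1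
    exact hy.symm
  have hsm : ContDiffAt ℝ ∞ (Function.invFun f) (f p) := hloc.congr_of_eventuallyEq heq
  refine ⟨hsm, fun w => ?_⟩
  have hΦ : HasFDerivAt (Function.invFun f) (fderiv ℝ (Function.invFun f) (f p)) (f p) :=
    (hsm.differentiableAt (by simp)).hasFDerivAt
  have hcomp := hΦ.comp p hdiff
  have hid : (Function.invFun f) ∘ f = id := by
    funext x; exact Function.leftInverse_invFun hi x
  rw [hid] at hcomp
  have huniq := hcomp.unique (hasFDerivAt_id p)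
  set v : ℝ × ℝ := ((w.1 / α - μ * w.2 / β) / (1 + μ ^ 2), (μ * w.1 / α + w.2 / β) / (1 + μ ^ 2))
    with hv'
  have hw : fderiv ℝ f p v = w := by
    rw [hv, hv']
    apply Prod.ext
    · simp only
      field_simp
      ring
    · simp only
      field_simp
      ring
  have := congrArg (fun T : (ℝ × ℝ) →L[ℝ] (ℝ × ℝ) => T v) huniq
  simpa [hw] using this

lemma disc_open : IsOpen Disc := by
  have : Continuous (fun q : ℝ × ℝ => q.1 ^ 2 + q.2 ^ 2) := by fun_prop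
  exact this.isOpen_preimage (Iio 1) isOpen_Iio

end DISC

theorem t_DISC (h : S_PLANE) : S_DISC := by
  obtain ⟨F, hF, hinj, hrange, hder⟩ := h
  set f := DISC.f F with hf
  have f1 : ContDiff ℝ ∞ f := DISC.f_smooth hF
  have f2 : Function.Injective f := DISC.f_inj hinj
  have f3 : range f = Disc := DISC.f_range hrange
  have f4 : ∀ p, ∃ α β μ : ℝ, 0 < α ∧ 0 < β ∧ ∀ v : ℝ × ℝ,
      fderiv ℝ f p v = (α * (v.1 + μ * v.2), β * (-μ * v.1 + v.2)) :=
    fun p => DISC.f_deriv hF p (hder p)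
  set Φ := Function.invFun f with hΦ
  have key : ∀ q ∈ Disc, ContDiffAt ℝ ∞ Φ q ∧ ∃ α β μ : ℝ, 0 < α ∧ 0 < β ∧ ∀ w : ℝ × ℝ,
      fderiv ℝ Φ q w =
      ((w.1 / α - μ * w.2 / β) / (1 + μ ^ 2), (μ * w.1 / α + w.2 / β) / (1 + μ ^ 2)) := by
    intro q hq
    rw [← f3] at hq
    obtain ⟨p, rfl⟩ := hq
    obtain ⟨α, β, μ, hα, hβ, hv⟩ := f4 p
    obtain ⟨h1, h2⟩ := DISC.inverse f1 f2 p hα hβ hv
    exact ⟨h1, α, β, μ, hα, hβ, h2⟩
  have hXY : ∀ q ∈ Disc, ContDiffAt ℝ ∞ (fun q => (Φ q).1) q ∧ ContDiffAt ℝ ∞ (fun q => (Φ q).2) q :=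
    fun q hq => ⟨(key q hq).1.fst, (key q hq).1.snd⟩
  have hX : ContDiffOn ℝ ∞ (fun q => (Φ q).1) Disc := fun q hq => (hXY q hq).1.contDiffWithinAt
  have hY : ContDiffOn ℝ ∞ (fun q => (Φ q).2) Disc := fun q hq => (hXY q hq).2.contDiffWithinAt
  have hX' := hX.fderiv_of_isOpen DISC.disc_open (m := ∞) (by simp)
  have hY' := hY.fderiv_of_isOpen DISC.disc_open (m := ∞) (by simp)
  have dX : ∀ q ∈ Disc, ∀ w, fderiv ℝ (fun q => (Φ q).1) q w = (fderiv ℝ Φ q w).1 := by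
    intro q hq w
    have h1 : HasFDerivAt Φ (fderiv ℝ Φ q) q :=
      ((key q hq).1.differentiableAt (by simp)).hasFDerivAt
    rw [h1.fst.fderiv]; rfl
  have dY : ∀ q ∈ Disc, ∀ w, fderiv ℝ (fun q => (Φ q).2) q w = (fderiv ℝ Φ q w).2 := by
    intro q hq w
    have h1 : HasFDerivAt Φ (fderiv ℝ Φ q) q :=
      ((key q hq).1.differentiableAt (by simp)).hasFDerivAt
    rw [h1.snd.fderiv]; rfl
  refine ⟨fun q => (fderiv ℝ (fun q => (Φ q).1) q (1, 0)) ^ 2 +
      (fderiv ℝ (fun q => (Φ q).2) q (1, 0)) ^ 2,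
    fun q => (fderiv ℝ (fun q => (Φ q).1) q (0, 1)) ^ 2 +
      (fderiv ℝ (fun q => (Φ q).2) q (0, 1)) ^ 2,
    fun q => (Φ q).1, fun q => (Φ q).2, ?_, ?_, hX, hY, ?_, ?_, ?_⟩
  · exact ((hX'.clm_apply contDiffOn_const).pow 2).add ((hY'.clm_apply contDiffOn_const).pow 2)
  · exact ((hX'.clm_apply contDiffOn_const).pow 2).add ((hY'.clm_apply contDiffOn_const).pow 2)
  · intro q hq
    obtain ⟨-, α, β, μ, hα, hβ, hw⟩ := key q hq
    have hD : 0 < 1 + μ ^ 2 := DISC.pos μ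
    simp only [dX q hq, dY q hq, hw]
    constructor
    · have : (0 : ℝ) < ((1 : ℝ) / α - μ * 0 / β) / (1 + μ ^ 2) := by
        simp only [mul_zero, zero_div, sub_zero]; positivity
      positivity
    · have : (0 : ℝ) < (μ * 0 / α + 1 / β) / (1 + μ ^ 2) := by
        simp only [mul_zero, zero_div, zero_add]; positivity
      positivity
  · have hΦf : ∀ p, Φ (f p) = p := fun p => Function.leftInverse_invFun f2 p
    have hfΦ : ∀ q ∈ Disc, f (Φ q) = q := by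
      intro q hq
      rw [← f3] at hq
      obtain ⟨p, rfl⟩ := hq
      rw [hΦf]
    refine ⟨fun q _ => mem_univ _, fun q hq q' hq' hqq => ?_, fun p _ => ?_⟩
    · rw [← hfΦ q hq, ← hfΦ q' hq']
      exact congrArg f hqq
    · refine ⟨f p, ?_, ?_⟩
      · rw [← f3]; exact mem_range_self p
      · simp only [hΦf]
  · intro q hq v w
    obtain ⟨-, α, β, μ, hα, hβ, hw⟩ := key q hq
    have hD : 0 < 1 + μ ^ 2 := DISC.pos μ
    simp only [dX q hq, dY q hq, hw]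
    field_simp
    ring

end Pool.Agent.NH97.OD
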