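import Pool.Agent.NH97.OD.Stm

/-!
# Project OD, part DOWN: the set of the pairs of labels is closed downwards
-/

set_option autoImplicit false

open scoped ContDiff

namespace Pool.Agent.NH97.OD

open Set

namespace DOWN

theorem adm_sw {σ : ℝ} {m : ℝ × ℝ → ℝ} (hm : Adm σ m) : Adm σ (sw m) := by
  have hsw : sw m = -(m ∘ (Homeomorph.prodComm ℝ ℝ)) := by
    funext q; rfl
  refine ⟨?_, ?_, fun p => ?_, fun p hp => ?_⟩
  · have h1 : ContDiff ℝ ∞ (fun q : ℝ × ℝ => m (q.2, q.1)) :=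
      hm.smooth.comp (contDiff_snd.prodMk contDiff_fst)
    exact h1.neg
  · rw [hsw]
    exact (hm.cpt.comp_homeomorph (Homeomorph.prodComm ℝ ℝ)).neg
  · show |(-m (p.2, p.1))| ≤ 1
    rw [abs_neg]
    exact hm.le _
  · have hs : Function.support (sw m) = (Homeomorph.prodComm ℝ ℝ) ⁻¹' Function.support m := by
      ext q
      show -m (q.2, q.1) ≠ 0 ↔ m (q.2, q.1) ≠ 0
      rw [neg_ne_zero]
    have h1 : p ∈ (Homeomorph.prodComm ℝ ℝ) ⁻¹' tsupport m := by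
      unfold tsupport at hp ⊢
      rw [hs] at hp
      rw [Homeomorph.preimage_closure]
      exact hp
    have h2 : 0 < p.2 ∧ 0 < p.1 ∧ p.2 + p.1 < σ := hm.supp _ h1
    exact ⟨h2.2.1, h2.1, by linarith [h2.2.2]⟩

theorem nonneg {P : ℝ → ℝ × ℝ → ℝ}
    (h1 : ∀ p : ℝ × ℝ, p.1 = 0 → ∀ t, P t p = 0) (h2 : ∀ p : ℝ × ℝ, 0 < p.1 → ∀ t, 0 < P t p)
    (p : ℝ × ℝ) (hp : 0 ≤ p.1) (t : ℝ) : 0 ≤ P t p := by
  rcases hp.eq_or_lt with h | h
  · rw [h1 p h.symm t]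
  · exact (h2 p h t).le

end DOWN

open DOWN in
/-- OD-15 DOWN: the set of the pairs of labels in a triangle is closed downwards. -/
theorem t_DOWN (h : S_POS) : S_DOWN := by
  intro σ σ1 m P Q hm hP hQ p hp a b ha haP hb hbQ
  obtain ⟨p1, p2, p3, _⟩ := h σ1 m P hm hP
  obtain ⟨q1, q2, q3, _⟩ := h σ1 (sw m) Q (adm_sw hm) hQ
  have hPc : Continuous (fun q : ℝ × (ℝ × ℝ) => P q.1 q.2) := hP.smooth.continuous
  have hQc : Continuous (fun q : ℝ × (ℝ × ℝ) => Q q.1 q.2) := hQ.smooth.continuous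
  -- down the `u`-leaf
  have hg : Continuous (fun t : ℝ => Q 0 (t, P t p)) := by
    have e1 : Continuous (fun t : ℝ => P t p) :=
      hPc.comp (continuous_id.prodMk continuous_const)
    exact hQc.comp (continuous_const.prodMk (continuous_id.prodMk e1))
  obtain ⟨t, ht, hgt⟩ := intermediate_value_Icc hp.2.1 hg.continuousOn
    (show b ∈ Icc (Q 0 ((0 : ℝ), P 0 p)) (Q 0 (p.2, P p.2 p)) by
      rw [q1 ((0 : ℝ), P 0 p) rfl 0, hP.init p]
      exact ⟨hb, hbQ⟩)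
  simp only at hgt
  set x2 : ℝ := P t p with hx2
  have hx2n : 0 ≤ x2 := nonneg p1 p2 p hp.1 t
  have hx2s : x2 + t ≤ σ := by
    have h4 := (p3 p t p.2 ht.2).1
    rw [hP.init p] at h4
    exact h4.trans hp.2.2
  have hlab : P 0 (x2, t) = P 0 p := hP.trans t 0 p
  -- down the `v`-leaf
  have hk : Continuous (fun r : ℝ => P 0 (r, Q r (t, x2))) := by
    have e1 : Continuous (fun r : ℝ => Q r (t, x2)) :=
      hQc.comp (continuous_id.prodMk continuous_const)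
    exact hPc.comp (continuous_const.prodMk (continuous_id.prodMk e1))
  have hQi : Q x2 (t, x2) = t := hQ.init (t, x2)
  obtain ⟨r, hr, hkr⟩ := intermediate_value_Icc hx2n hk.continuousOn
    (show a ∈ Icc (P 0 ((0 : ℝ), Q 0 (t, x2))) (P 0 (x2, Q x2 (t, x2))) by
      rw [p1 ((0 : ℝ), Q 0 (t, x2)) rfl 0, hQi, hlab]
      exact ⟨ha, haP⟩)
  simp only at hkr
  refine ⟨(r, Q r (t, x2)), ⟨hr.1, nonneg q1 q2 (t, x2) ht.1 r, ?_⟩, hkr, ?_⟩
  · have h4 := (q3 (t, x2) r x2 hr.2).1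
    rw [hQi] at h4
    show r + Q r (t, x2) ≤ σ
    linarith
  · show Q 0 (Q r (t, x2), r) = b
    rw [hQ.trans r 0 (t, x2)]
    exact hgt

end Pool.Agent.NH97.OD
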