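import Pool.Agent.NH97.OD.Stm

/-!
# OD-16: the field of the next stage is admissible
-/

set_option autoImplicit false

open scoped ContDiff

namespace Pool.Agent.NH97.OD

open Set

namespace EXT

/-- the set which contains the support of the new part -/
def C (σ θ : ℝ) (χ : ℝ → ℝ) : Set (ℝ × ℝ) :=
  {p | p.1 + p.2 ∈ tsupport χ ∧ |p.1 - p.2| ≤ σ - θ}

variable {σ σ' θ : ℝ} {m : ℝ × ℝ → ℝ} {χ N : ℝ → ℝ}

theorem C_closed : IsClosed (C σ θ χ) :=
  ((isClosed_tsupport χ).preimage (continuous_fst.add continuous_snd)).inter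
    (isClosed_le (continuous_fst.sub continuous_snd).abs continuous_const)

theorem C_pos (hθ : 0 < θ) (hχ : tsupport χ ⊆ Ioo σ σ') {p : ℝ × ℝ} (hp : p ∈ C σ θ χ) :
    0 < p.1 ∧ 0 < p.2 ∧ p.1 + p.2 < σ' := by
  obtain ⟨h1, h2⟩ := hp
  have h3 := hχ h1
  have h4 := abs_le.1 h2
  exact ⟨by linarith [h3.1], by linarith [h3.1], h3.2⟩

theorem C_compact (hθ : 0 < θ) (hχ : tsupport χ ⊆ Ioo σ σ') : IsCompact (C σ θ χ) := by
  refine (isCompact_Icc (a := ((0, 0) : ℝ × ℝ)) (b := (σ', σ'))).of_isClosed_subset C_closed ?_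
  intro p hp
  obtain ⟨h1, h2, h3⟩ := C_pos hθ hχ hp
  exact ⟨⟨h1.le, h2.le⟩, ⟨show p.1 ≤ σ' by linarith, show p.2 ≤ σ' by linarith⟩⟩

theorem supp_w (hN : ∀ c, σ - θ ≤ |c| → N c = 0) {p : ℝ × ℝ}
    (hp : χ (p.1 + p.2) * N (p.1 - p.2) ≠ 0) : p ∈ C σ θ χ := by
  refine ⟨subset_tsupport χ (left_ne_zero_of_mul hp), ?_⟩
  by_contra h
  exact right_ne_zero_of_mul hp (hN _ (not_le.1 h).le)

end EXT

open EXT in
theorem t_EXT : S_EXT := by
  intro σ σ' θ m χ N _ _ hθ hm hχs hχ _ hχt hNs hN hN0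
  have hlow : ∀ p : ℝ × ℝ, p.1 + p.2 ≤ σ → ext m χ N p = m p := by
    intro p hp
    have h1 : χ (p.1 + p.2) = 0 := by
      by_contra h
      exact absurd (hχt (subset_tsupport χ h)).1 (not_lt.2 hp)
    unfold ext
    rw [h1, zero_mul, add_zero]
  have hup : ∀ p : ℝ × ℝ, σ ≤ p.1 + p.2 → ext m χ N p = χ (p.1 + p.2) * N (p.1 - p.2) := by
    intro p hp
    have h1 : m p = 0 := by
      by_contra h
      exact absurd (hm.supp p (subset_tsupport m h)).2.2 (not_lt.2 hp)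
    unfold ext
    rw [h1, zero_add]
  have hsup : Function.support (ext m χ N) ⊆ tsupport m ∪ C σ θ χ := by
    intro p hp
    by_cases h : m p = 0
    · right
      apply supp_w hN0
      intro h2
      apply hp
      unfold ext
      rw [h, h2, add_zero]
    · exact Or.inl (subset_tsupport m h)
  have hcl : IsClosed (tsupport m ∪ C σ θ χ) := (isClosed_tsupport m).union C_closed
  have htsup : tsupport (ext m χ N) ⊆ tsupport m ∪ C σ θ χ := closure_minimal hsup hcl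
  refine ⟨⟨?_, ?_, ?_, ?_⟩, hlow, hup⟩
  · have h1 : ContDiff ℝ ∞ (fun p : ℝ × ℝ => χ (p.1 + p.2)) :=
      hχs.comp (contDiff_fst.add contDiff_snd)
    have h2 : ContDiff ℝ ∞ (fun p : ℝ × ℝ => N (p.1 - p.2)) :=
      hNs.comp (contDiff_fst.sub contDiff_snd)
    exact hm.smooth.add (h1.mul h2)
  · exact (hm.cpt.isCompact.union (C_compact hθ hχt)).of_isClosed_subset
      (isClosed_tsupport _) htsup
  · intro p
    rcases le_total (p.1 + p.2) σ with h | h
    · rw [hlow p h]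
      exact hm.le p
    · rw [hup p h, abs_mul, abs_of_nonneg (hχ _).1]
      exact mul_le_one₀ (hχ _).2 (abs_nonneg _) (hN _)
  · intro p hp
    rcases htsup hp with h | h
    · obtain ⟨h1, h2, h3⟩ := hm.supp p h
      exact ⟨h1, h2, by linarith⟩
    · exact C_pos hθ hχt h

end Pool.Agent.NH97.OD
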