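import Pool.Agent.NH97.OD.Stm
import Pool.Agent.GR.Flow

/-!
# OD-1: the flow of the field `(-m, 1)`
-/

set_option autoImplicit false

open scoped ContDiff

namespace Pool.Agent.NH97.OD

open Set Pool.Agent.GR.Flow

namespace FLOW

/-- the vector field -/
def X (m : ℝ × ℝ → ℝ) (p : ℝ × ℝ) : ℝ × ℝ := (-m p, 1)

variable {m : ℝ × ℝ → ℝ} {g : ℝ → ℝ × ℝ → ℝ × ℝ}

theorem X_smooth (hm : ContDiff ℝ ∞ m) : ContDiff ℝ ∞ (X m) := hm.neg.prodMk contDiff_const

theorem X_lip (hm : ContDiff ℝ ∞ m) (hc : HasCompactSupport m) : ∃ K, LipschitzWith K (X m) := by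
  obtain ⟨C, hC⟩ := ContDiff.lipschitzWith_of_hasCompactSupport hc hm (by simp)
  refine ⟨C, LipschitzWith.of_dist_le_mul fun p q => ?_⟩
  have h1 := hC.dist_le_mul p q
  have h2 : dist (X m p) (X m q) = dist (m p) (m q) := by
    unfold X
    rw [Prod.dist_eq]
    simp only [dist_self, dist_neg_neg]
    exact max_eq_left dist_nonneg
  rw [h2]
  exact h1

theorem X_bdd (hm : ContDiff ℝ ∞ m) (hc : HasCompactSupport m) :
    ∃ M : NNReal, ∀ p, ‖X m p‖ ≤ M := by
  obtain ⟨C, hC⟩ := hc.exists_bound_of_continuous hm.continuous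
  have h0 : 0 ≤ max C 1 := le_trans zero_le_one (le_max_right _ _)
  refine ⟨⟨max C 1, h0⟩, fun p => ?_⟩
  change ‖X m p‖ ≤ max C 1
  unfold X
  rw [Prod.norm_def]
  refine max_le ?_ ?_
  · show ‖-m p‖ ≤ _
    rw [norm_neg]
    exact (hC p).trans (le_max_left _ _)
  · show ‖(1 : ℝ)‖ ≤ _
    rw [norm_one]
    exact le_max_right _ _

theorem g_snd (hg : IsFlowOf (X m) g) (t : ℝ) (p : ℝ × ℝ) : (g t p).2 = p.2 + t := by
  have h1 : ∀ t, HasDerivAt (fun t => (g t p).2 - t) 0 t := by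
    intro t
    have h2 : HasDerivAt (fun t => (g t p).2) (X m (g t p)).2 t :=
      (ContinuousLinearMap.snd ℝ ℝ ℝ).hasFDerivAt.comp_hasDerivAt t (hg.deriv p t)
    have h3 := h2.sub (hasDerivAt_id t)
    have h4 : (X m (g t p)).2 - 1 = 0 := sub_self _
    rw [h4] at h3
    exact h3
  have h5 := is_const_of_deriv_eq_zero (fun t => (h1 t).differentiableAt)
    (fun t => (h1 t).deriv) t 0
  simp only [hg.zero, sub_zero] at h5
  linarith

theorem g_smooth (hm : ContDiff ℝ ∞ m) {K : NNReal} (hK : LipschitzWith K (X m))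
    (hg : IsFlowOf (X m) g) : ContDiff ℝ ∞ (fun q : ℝ × (ℝ × ℝ) => g q.1 q.2) := by
  rw [contDiff_infty]
  intro n
  have h1 : ContDiff ℝ ((n + 1 : ℕ) : WithTop ℕ∞) (X m) := (contDiff_infty.1 (X_smooth hm)) (n + 1)
  have h2 := contDiff_flow (X := ⟨X m, (X_smooth hm).continuous⟩) (m := n + 1)
    (Nat.succ_ne_zero n) h1 hK hg
  exact h2.of_le (by exact_mod_cast Nat.le_succ n)

end FLOW

open FLOW in
theorem t_FLOW : S_FLOW := by
  intro m hm hc
  obtain ⟨K, hK⟩ := X_lip hm hc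
  obtain ⟨M, hM⟩ := X_bdd hm hc
  choose γ h0 h1 using fun x => exists_solution hK hM x
  have hg : IsFlowOf (X m) (fun t x => γ x t) := ⟨fun x => h0 x, fun x t => h1 x t⟩
  set g : ℝ → ℝ × ℝ → ℝ × ℝ := fun t x => γ x t with hgd
  have hgs := g_smooth hm hK hg
  have hpt : ∀ (t : ℝ) (p : ℝ × ℝ), g (t - p.2) p = ((g (t - p.2) p).1, t) := by
    intro t p
    refine Prod.ext rfl ?_
    rw [g_snd hg]
    show p.2 + (t - p.2) = t
    ring
  refine ⟨fun t p => (g (t - p.2) p).1, ?_, ?_, ?_, ?_⟩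
  · have h2 : ContDiff ℝ ∞ (fun q : ℝ × (ℝ × ℝ) => ((q.1 - q.2.2, q.2) : ℝ × (ℝ × ℝ))) :=
      (contDiff_fst.sub (contDiff_snd.comp contDiff_snd)).prodMk contDiff_snd
    exact contDiff_fst.comp (hgs.comp h2)
  · intro p
    show (g (p.2 - p.2) p).1 = p.1
    rw [sub_self, hg.zero]
  · intro t p
    have h2 := hg.deriv p (t - p.2)
    have h3 : HasDerivAt (fun t : ℝ => t - p.2) 1 t := (hasDerivAt_id t).sub_const _
    have h4 := h2.scomp t h3
    rw [one_smul] at h4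
    have h5 : HasDerivAt (fun t => (g (t - p.2) p).1) (X m (g (t - p.2) p)).1 t :=
      (ContinuousLinearMap.fst ℝ ℝ ℝ).hasFDerivAt.comp_hasDerivAt t h4
    have h6 : (X m (g (t - p.2) p)).1 = -m ((g (t - p.2) p).1, t) := by
      show -m (g (t - p.2) p) = _
      rw [← hpt t p]
    rw [h6] at h5
    exact h5
  · intro s t p
    show (g (t - s) ((g (s - p.2) p).1, s)).1 = (g (t - p.2) p).1
    rw [← hpt s p, ← hg.add hK]
    congr 2
    ring

end Pool.Agent.NH97.OD
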