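import Pool.Agent.NH97.OD.Stm

/-! OD-3 GRAD: the gradient of the label is a positive multiple of `(1, m)`. -/

set_option autoImplicit false

open scoped ContDiff

namespace Pool.Agent.NH97.OD

namespace GRAD

variable {m : ℝ × ℝ → ℝ} {P : ℝ → ℝ × ℝ → ℝ}

lemma smooth_at (h : Leaf m P) (t : ℝ) : ContDiff ℝ ∞ (fun p : ℝ × ℝ => P t p) :=
  h.smooth.comp (contDiff_const.prodMk contDiff_id)

lemma hasF (h : Leaf m P) (t : ℝ) (p : ℝ × ℝ) :
    HasFDerivAt (fun p : ℝ × ℝ => P t p) (fderiv ℝ (fun p : ℝ × ℝ => P t p) p) p :=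
  (((smooth_at h t).differentiable (by simp)) p).hasFDerivAt

/-- the partial derivative in the first coordinate -/
lemma hasx (h : Leaf m P) (t x y : ℝ) :
    HasDerivAt (fun x : ℝ => P t (x, y)) (fderiv ℝ (fun p : ℝ × ℝ => P t p) (x, y) (1, 0)) x := by
  have h1 : HasDerivAt (fun x : ℝ => ((x, y) : ℝ × ℝ)) (1, 0) x :=
    (hasDerivAt_id x).prodMk (hasDerivAt_const x y)
  exact (hasF h t (x, y)).comp_hasDerivAt x h1

/-- along the leaf the label is constant -/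
lemma along (h : Leaf m P) (p : ℝ × ℝ) :
    fderiv ℝ (fun p : ℝ × ℝ => P 0 p) p (-m p, 1) = 0 := by
  have hp : ((P p.2 p, p.2) : ℝ × ℝ) = p := by rw [h.init]
  have h1 : HasDerivAt (fun t : ℝ => ((P t p, t) : ℝ × ℝ)) (-m (P p.2 p, p.2), 1) p.2 :=
    (h.deriv p.2 p).prodMk (hasDerivAt_id p.2)
  have h2 : HasFDerivAt (fun p : ℝ × ℝ => P 0 p) (fderiv ℝ (fun p : ℝ × ℝ => P 0 p) p)
      ((fun t : ℝ => ((P t p, t) : ℝ × ℝ)) p.2) := by
    show HasFDerivAt _ _ ((P p.2 p, p.2) : ℝ × ℝ)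
    rw [hp]; exact hasF h 0 p
  have h3 := HasFDerivAt.comp_hasDerivAt (f := fun t : ℝ => ((P t p, t) : ℝ × ℝ)) p.2 h2 h1
  have h4 : ((fun p : ℝ × ℝ => P 0 p) ∘ fun t : ℝ => ((P t p, t) : ℝ × ℝ)) = fun _ => P 0 p := by
    funext t
    exact h.trans t 0 p
  rw [h4, hp] at h3
  exact h3.unique (hasDerivAt_const p.2 (P 0 p))

/-- the partial derivative does not vanish -/
lemma ne (h : Leaf m P) (x y : ℝ) :
    fderiv ℝ (fun p : ℝ × ℝ => P 0 p) (x, y) (1, 0) ≠ 0 := by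
  intro h0
  have h1 := hasx h 0 x y
  have h2 := hasx h y (P 0 (x, y)) 0
  have h3 := HasDerivAt.comp x h2 h1
  have h4 : ((fun x : ℝ => P y (x, 0)) ∘ fun x : ℝ => P 0 (x, y)) = fun x => x := by
    funext z
    show P y (P 0 (z, y), 0) = z
    rw [h.trans 0 y (z, y)]
    exact h.init (z, y)
  rw [h4, h0, mul_zero] at h3
  exact zero_ne_one (h3.unique (hasDerivAt_id x))

lemma one (h : Leaf m P) (x : ℝ) : fderiv ℝ (fun p : ℝ × ℝ => P 0 p) (x, 0) (1, 0) = 1 := by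
  have h1 := hasx h 0 x 0
  have h4 : (fun x : ℝ => P 0 (x, 0)) = fun x => x := by
    funext z
    exact h.init (z, 0)
  rw [h4] at h1
  exact h1.unique (hasDerivAt_id x)

lemma cont (h : Leaf m P) (x : ℝ) :
    Continuous fun r : ℝ => fderiv ℝ (fun p : ℝ × ℝ => P 0 p) (x, r) (1, 0) := by
  have h1 : Continuous (fderiv ℝ (fun p : ℝ × ℝ => P 0 p)) :=
    (smooth_at h 0).continuous_fderiv (by simp)
  have h2 : Continuous fun r : ℝ => fderiv ℝ (fun p : ℝ × ℝ => P 0 p) (x, r) :=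
    h1.comp (continuous_const.prodMk continuous_id)
  exact h2.clm_apply continuous_const

lemma pos (h : Leaf m P) (x y : ℝ) : 0 < fderiv ℝ (fun p : ℝ × ℝ => P 0 p) (x, y) (1, 0) := by
  by_contra hc
  obtain ⟨r, hr⟩ := mem_range_of_exists_le_of_exists_ge (cont h x)
    ⟨y, not_lt.1 hc⟩ ⟨0, by rw [one h x]; exact zero_le_one⟩
  exact ne h x r hr

end GRAD

open GRAD in
theorem t_GRAD : S_GRAD := by
  intro m P h p
  refine ⟨fderiv ℝ (fun p : ℝ × ℝ => P 0 p) p (1, 0), pos h p.1 p.2, fun v => ?_⟩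
  have hv : v = (v.1 + m p * v.2) • ((1, 0) : ℝ × ℝ) + v.2 • ((-m p, 1) : ℝ × ℝ) := by
    ext
    · simp
      ring
    · simp
  conv_lhs => rw [hv]
  rw [map_add, map_smul, map_smul, along h p, smul_zero, add_zero, smul_eq_mul, mul_comm]

end Pool.Agent.NH97.OD
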