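import Pool.Agent.NH97.OD.Stm

/-!
# OD-17 INVS: no forbidden crossing in the next stage
-/

set_option autoImplicit false
set_option linter.unusedVariables false

open scoped ContDiff

namespace Pool.Agent.NH97.OD

open Set Filter Topology

namespace INVS

theorem supp_sw (m : ℝ × ℝ → ℝ) (p : ℝ × ℝ) (hp : p ∈ tsupport (sw m)) : (p.2, p.1) ∈ tsupport m := by
  have h1 : Function.support (sw m) = (Homeomorph.prodComm ℝ ℝ) ⁻¹' (Function.support m) := by
    ext q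
    simp only [sw, Function.mem_support, ne_eq, neg_eq_zero, mem_preimage]
    exact Iff.rfl
  rw [tsupport, h1, ← Homeomorph.preimage_closure] at hp
  exact hp

theorem adm_sw {σ : ℝ} {m : ℝ × ℝ → ℝ} (h : Adm σ m) : Adm σ (sw m) := by
  refine ⟨?_, ?_, ?_, ?_⟩
  · exact (h.smooth.comp (contDiff_snd.prodMk contDiff_fst)).neg
  · have h1 : HasCompactSupport (m ∘ (Homeomorph.prodComm ℝ ℝ)) :=
      h.cpt.comp_homeomorph _
    exact h1.comp_left (g := fun x : ℝ => -x) neg_zero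
  · intro p
    rw [sw, abs_neg]
    exact h.le _
  · intro p hp
    have h1 := h.supp _ (supp_sw m p hp)
    exact ⟨h1.2.1, h1.1, by linarith [h1.2.2]⟩

/-- labels in the closed quadrant are nonnegative -/
theorem nonneg (h2 : S_POS) {σ : ℝ} {m : ℝ × ℝ → ℝ} {P : ℝ → ℝ × ℝ → ℝ} (hm : Adm σ m) (hP : Leaf m P)
    (p : ℝ × ℝ) (hp : 0 ≤ p.1) (t : ℝ) : 0 ≤ P t p := by
  rcases hp.eq_or_lt with h | h
  · exact ((h2 σ m P hm hP).1 p h.symm t).ge
  · exact ((h2 σ m P hm hP).2.1 p h t).le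

/-- the entry point of a leaf and the barrier -/
theorem entry (h2 : S_POS) (h3 : S_LOC) (h4 : S_BAR) {σ σ' : ℝ} {n n' : ℝ × ℝ → ℝ} {χ R : ℝ → ℝ}
    {η : ℝ} {P P' : ℝ → ℝ × ℝ → ℝ} (K : Set ℝ) (hσ : 0 < σ) (hσ' : σ < σ') (hn : Adm σ n)
    (hn' : Adm σ' n') (hP : Leaf n P) (hP' : Leaf n' P') (hag : ∀ q : ℝ × ℝ, q.1 + q.2 ≤ σ → n' q = n q)
    (hχ : ∀ s, 0 ≤ χ s ∧ χ s ≤ 1) (hR : ∀ s, HasDerivAt R (χ s - 1) s)
    (hrem : ∀ s ∈ Icc σ σ', 0 ≤ R s ∧ R s ≤ η / 2) (hη : 0 < η) (hK : ∀ κ ∈ K, |κ| + η < σ)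
    (hz : ∀ κ ∈ K, ∀ x y : ℝ, σ ≤ x + y → x + y ≤ σ' → κ + η / 5 ≤ x - y → x - y ≤ κ + 4 * η / 5 →
      n' (x, y) = -χ (x + y)) (p : ℝ × ℝ) (hp : p ∈ Tri σ') (hpσ : σ < p.1 + p.2) :
    ∃ c ∈ Icc (-σ) σ, P' 0 p ≤ (if c = σ then σ' else P 0 ((σ + c) / 2, (σ - c) / 2)) ∧
      ∀ κ ∈ K, κ ≤ c - 3 * η / 4 → κ + η / 4 ≤ p.1 - p.2 := by
  have hpos := h2 σ' n' P' hn' hP'
  have hmono : ∀ t1 t2 : ℝ, t1 ≤ t2 → P' t1 p + t1 ≤ P' t2 p + t2 := fun t1 t2 h => (hpos.2.2.1 p t1 t2 h).1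
  have hinit := hP'.init p
  have ha0 : P' 0 p ≤ p.1 + p.2 := by
    have := hmono 0 p.2 hp.2.1
    rw [hinit] at this
    linarith
  have hbar := fun κ (hκ : κ ∈ K) (q : ℝ × ℝ) (t : ℝ) => h4 n' P' hP' hn'.le κ η σ σ' χ R hη
    (fun s hs => ⟨(hχ s).1, (hχ s).2, (hrem s hs).1, (hrem s hs).2, hR s⟩) (hz κ hκ) q t
  rcases le_or_gt σ (P' 0 p) with hge | hlt
  · refine ⟨σ, ⟨by linarith, le_refl _⟩, ?_, ?_⟩
    · rw [if_pos rfl]
      exact ha0.trans hp.2.2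
    · intro κ hκ _
      have h5 := hbar κ hκ (P' 0 p, 0) p.2 hp.2.1 (by simpa using hge)
        (by rw [hP'.trans, hinit]; exact hp.2.2)
        (by
          have := hK κ hκ
          have := le_abs_self κ
          simp only
          linarith)
      rw [hP'.trans, hinit] at h5
      exact h5
  · -- intermediate value
    have hcont : Continuous (fun t => P' t p + t) := by
      have h5 : Continuous (fun t : ℝ => P' t p) :=
        continuous_iff_continuousAt.mpr (fun t => (hP'.deriv t p).continuousAt)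
      exact h5.add continuous_id
    have hivt := intermediate_value_Icc hp.2.1 (hcont.continuousOn (s := Icc 0 p.2))
    obtain ⟨t1, ht1, ht1'⟩ := hivt (show σ ∈ Icc (P' 0 p + 0) (P' p.2 p + p.2) from
      ⟨by linarith, by rw [hinit]; exact hpσ.le⟩)
    simp only at ht1'
    have hx1 : 0 ≤ P' t1 p := nonneg h2 hn' hP' p hp.1 t1
    have hq1 : (σ + (P' t1 p - t1)) / 2 = P' t1 p := by linarith
    have hq2 : (σ - (P' t1 p - t1)) / 2 = t1 := by linarith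
    refine ⟨P' t1 p - t1, ⟨by linarith, by linarith [ht1.1]⟩, ?_, ?_⟩
    · split_ifs with hif
      · linarith
      · rw [hq1, hq2]
        have h5 := h3 σ σ' σ n' n P' P hn' hn hP' hP (fun q hq => hag q hq.2.2) (P' t1 p, t1)
          ⟨hx1, ht1.1, ht1'.le⟩ 0 ⟨le_refl _, ht1.1⟩
        rw [← h5, hP'.trans]
    · intro κ hκ hκ'
      have h5 := hbar κ hκ (P' t1 p, t1) p.2 ht1.2 ht1'.ge
        (by rw [hP'.trans, hinit]; exact hp.2.2)
        (by simp only; linarith)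
      rw [hP'.trans, hinit] at h5
      exact h5

end INVS

open INVS

theorem t_INVS (h1 : S_UNIQ) (h2 : S_POS) (h3 : S_LOC) (h4 : S_BAR) : S_INVS := by
  intro σ σ' m χ R N K η P Q hS hP hQ hInv hnode P' Q' hP' hQ' p hp
  have hag' : ∀ q : ℝ × ℝ, q.1 + q.2 ≤ σ → sw (ext m χ N) q = sw m q := by
    intro q hq
    simp only [sw]
    rw [hS.below (q.2, q.1) (by simpa [add_comm] using hq)]
  rcases le_or_gt (p.1 + p.2) σ with hle | hgt
  · have h5 := h3 σ σ' σ _ _ _ _ hS.adm' hS.adm hP' hP (fun q hq => hS.below q hq.2.2) p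
      ⟨hp.1, hp.2.1, hle⟩ 0 ⟨le_refl _, hp.2.1⟩
    have h6 := h3 σ σ' σ _ _ _ _ (adm_sw hS.adm') (adm_sw hS.adm) hQ' hQ (fun q hq => hag' q hq.2.2)
      (p.2, p.1) ⟨hp.2.1, hp.1, by simpa [add_comm] using hle⟩ 0 ⟨le_refl _, hp.1⟩
    rw [h5, h6]
    exact hInv P Q hP hQ p ⟨hp.1, hp.2.1, hle⟩
  · obtain ⟨c1, hc1, ha, hb1⟩ := entry h2 h3 h4 (K : Set ℝ) hS.pos hS.lt hS.adm hS.adm' hP hP' hS.below
      hS.chi hS.deriv hS.rem hS.eta (fun κ hκ => hS.inside κ hκ)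
      (by
        intro κ hκ x y hxy _ h5 h6
        rw [hS.above (x, y) hxy]
        simp only
        rw [hS.right κ hκ (x - y) h5 h6]
        ring) p hp hgt
    obtain ⟨c2, hc2, hb, hb2⟩ := entry h2 h3 h4 {κ : ℝ | -κ ∈ K} hS.pos hS.lt (adm_sw hS.adm)
      (adm_sw hS.adm') hQ hQ' hag' hS.chi hS.deriv hS.rem hS.eta
      (fun κ hκ => by have := hS.inside (-κ) hκ; rwa [abs_neg] at this)
      (by
        intro κ hκ x y hxy _ h5 h6
        simp only [sw]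
        rw [hS.above (y, x) (by simpa [add_comm] using hxy)]
        simp only
        rw [hS.left (-κ) hκ (y - x) (by linarith) (by linarith), add_comm y x]
        ring) (p.2, p.1) ⟨hp.2.1, hp.1, by simpa [add_comm] using hp.2.2⟩ (by simpa [add_comm] using hgt)
    have h7 := hnode (-c2) ⟨by linarith [hc2.2], by linarith [hc2.1]⟩ c1 hc1 (by
      intro κ hκ hcon
      have h8 := hb1 κ hκ hcon.2
      have h9 := hb2 (-κ) (by simpa using hκ) (by linarith [hcon.1])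
      simp only at h9
      linarith [hS.eta])
    have h0a : 0 ≤ P' 0 p := nonneg h2 hS.adm' hP' p hp.1 0
    have h0b : 0 ≤ Q' 0 (p.2, p.1) := nonneg h2 (adm_sw hS.adm') hQ' (p.2, p.1) hp.2.1 0
    have hbb : Q' 0 (p.2, p.1) ≤ (if -c2 = -σ then σ' else Q 0 ((σ - -c2) / 2, (σ + -c2) / 2)) := by
      rw [show (if -c2 = -σ then σ' else Q 0 ((σ - -c2) / 2, (σ + -c2) / 2)) =
        (if c2 = σ then σ' else Q 0 ((σ + c2) / 2, (σ - c2) / 2)) by
          rw [sub_neg_eq_add, ← sub_eq_add_neg]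
          by_cases h : c2 = σ
          · rw [if_pos h, if_pos (by rw [h])]
          · rw [if_neg h, if_neg (fun h' => h (neg_injective h'))]]
      exact hb
    exact lt_of_le_of_lt (mul_le_mul ha hbb h0b (h0a.trans ha)) h7

end Pool.Agent.NH97.OD
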