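import Pool.Agent.NH97.OD.Stm

/-!
# Project OD, part LOC: locality of the labels
-/

set_option autoImplicit false

open scoped ContDiff

namespace Pool.Agent.NH97.OD

open Set

/-- OD-5 LOC: the label of a point of the triangle depends only on the field in the triangle. -/
theorem t_LOC (h : S_UNIQ) (h2 : S_POS) : S_LOC := by
  intro σ σ1 σ2 m m' P P' hm _ hP hP' heq p hp t ht
  obtain ⟨q1, q2, q3, _⟩ := h2 σ1 m P hm hP
  have hnn : ∀ r, 0 ≤ P r p := by
    intro r
    rcases hp.1.eq_or_lt with h0 | h0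
    · rw [q1 p h0.symm r]
    · exact (q2 p h0 r).le
  have hinit : P p.2 p = p.1 := hP.init p
  have hderiv : ∀ r ∈ Icc t p.2, HasDerivAt (fun r => P r p) (-m' (P r p, r)) r := by
    intro r hr
    have h3 : (P r p, r) ∈ Tri σ := by
      refine ⟨hnn r, ht.1.trans hr.1, ?_⟩
      have h4 := (q3 p r p.2 hr.2).1
      rw [hinit] at h4
      exact h4.trans hp.2.2
    rw [← heq _ h3]
    exact hP.deriv r p
  have h5 := (h.1 m' P' hP' (fun r => P r p) t p.2 ht.2 hderiv).2 t
  simp only [hinit] at h5
  rw [hP'.init (P t p, t)] at h5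
  exact h5.symm

end Pool.Agent.NH97.OD
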