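import Pool.Agent.NH97.OD.Stm

/-!
# Project OD, OD-9: the choice of the nodes
-/

set_option autoImplicit false

namespace Pool.Agent.NH97.OD

open Set

namespace NODE

open Filter Topology

/-- the choice of the mesh -/
theorem mesh (σ S : ℝ) (f g : ℝ → ℝ) (hσ : 0 < σ) (hf : ContinuousOn f (Icc (-σ) σ))
    (hg : ContinuousOn g (Icc (-σ) σ)) (mf : MonotoneOn f (Icc (-σ) σ)) (mg : AntitoneOn g (Icc (-σ) σ))
    (h : ∀ c ∈ Icc (-σ) σ, 0 ≤ f c ∧ 0 ≤ g c ∧ f c * g c < 1) (hf0 : f (-σ) = 0) (hg0 : g σ = 0)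
    (hS : 0 ≤ S) (cv cu : ℝ) (h1 : -σ < cv) (h2 : cv ≤ cu) (h3 : cu < σ) (h4 : f cu * g cv < 1) :
    ∃ δ : ℝ, 0 < δ ∧ 20 * δ < σ ∧ cu + 6 * δ < σ ∧ -σ < cv - 6 * δ ∧
      (∀ c1 ∈ Icc (-σ) σ, ∀ c2 ∈ Icc (-σ) σ, c1 - c2 ≤ 3 * δ → f c1 * g c2 < 1) ∧
      (∀ c ∈ Icc (-σ) σ, σ - 3 * δ ≤ c → S * g c < 1) ∧
      (∀ c ∈ Icc (-σ) σ, c ≤ -σ + 3 * δ → f c * S < 1) ∧
      f (cu + 3 * δ) * g (cv - 3 * δ) < 1 := by
  have hl : -σ ∈ Icc (-σ) σ := ⟨le_rfl, by linarith⟩
  have hr : σ ∈ Icc (-σ) σ := ⟨by linarith, le_rfl⟩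
  have hcu : cu ∈ Icc (-σ) σ := ⟨by linarith, h3.le⟩
  have hcv : cv ∈ Icc (-σ) σ := ⟨h1.le, by linarith⟩
  obtain ⟨c0, hc0, hmax⟩ := isCompact_Icc.exists_isMaxOn ⟨-σ, hl⟩ (hf.mul hg)
  have hμ : f c0 * g c0 < 1 := (h c0 hc0).2.2
  have hle : ∀ c ∈ Icc (-σ) σ, f c * g c ≤ f c0 * g c0 := fun c hc => hmax hc
  -- the choice of `ε`
  have hε : ∀ᶠ ε : ℝ in 𝓝[>] 0, S * ε < 1 ∧ f c0 * g c0 + f σ * ε < 1 ∧ (f cu + ε) * (g cv + ε) < 1 := by
    have e1 : Tendsto (fun ε : ℝ => S * ε) (𝓝[>] 0) (𝓝 (S * 0)) :=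
      ((continuous_const.mul continuous_id).tendsto 0).mono_left nhdsWithin_le_nhds
    have e2 : Tendsto (fun ε : ℝ => f c0 * g c0 + f σ * ε) (𝓝[>] 0) (𝓝 (f c0 * g c0 + f σ * 0)) :=
      ((continuous_const.add (continuous_const.mul continuous_id)).tendsto 0).mono_left nhdsWithin_le_nhds
    have e3 : Tendsto (fun ε : ℝ => (f cu + ε) * (g cv + ε)) (𝓝[>] 0) (𝓝 ((f cu + 0) * (g cv + 0))) :=
      (((continuous_const.add continuous_id).mul (continuous_const.add continuous_id)).tendsto 0).mono_left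
        nhdsWithin_le_nhds
    refine (e1.eventually_lt_const (by simp)).and
      ((e2.eventually_lt_const (by simpa using hμ)).and (e3.eventually_lt_const (by simpa using h4)))
  obtain ⟨ε, ⟨hε1, hε2, hε3⟩, hε0⟩ := (hε.and self_mem_nhdsWithin).exists
  have hε0' : 0 < ε := hε0
  have uf := isCompact_Icc.uniformContinuousOn_of_continuous hf
  have ug := isCompact_Icc.uniformContinuousOn_of_continuous hg
  rw [Metric.uniformContinuousOn_iff] at uf ug
  obtain ⟨δf, hδf, uf⟩ := uf ε hε0'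
  obtain ⟨δg, hδg, ug⟩ := ug ε hε0'
  obtain ⟨δ, hδ, hδs⟩ : ∃ δ : ℝ, 0 < δ ∧ (δ ≤ δf / 4 ∧ δ ≤ δg / 4 ∧ δ ≤ σ / 21 ∧ δ ≤ (σ - cu) / 7 ∧
      δ ≤ (cv + σ) / 7) := by
    refine ⟨min (δf / 4) (min (δg / 4) (min (σ / 21) (min ((σ - cu) / 7) ((cv + σ) / 7)))), ?_, ?_⟩
    · have a1 : 0 < δf / 4 := by linarith
      have a2 : 0 < δg / 4 := by linarith
      have a3 : 0 < σ / 21 := by linarith
      have a4 : 0 < (σ - cu) / 7 := by linarith
      have a5 : 0 < (cv + σ) / 7 := by linarith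
      exact lt_min a1 (lt_min a2 (lt_min a3 (lt_min a4 a5)))
    · refine ⟨min_le_left _ _, ?_, ?_, ?_, ?_⟩
      · exact (min_le_right _ _).trans (min_le_left _ _)
      · exact (min_le_right _ _).trans ((min_le_right _ _).trans (min_le_left _ _))
      · exact (min_le_right _ _).trans ((min_le_right _ _).trans ((min_le_right _ _).trans (min_le_left _ _)))
      · exact (min_le_right _ _).trans ((min_le_right _ _).trans ((min_le_right _ _).trans (min_le_right _ _)))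
  obtain ⟨d1, d2, d3, d4, d5⟩ := hδs
  have uf' : ∀ x ∈ Icc (-σ) σ, ∀ y ∈ Icc (-σ) σ, |x - y| ≤ 3 * δ → f x < f y + ε := by
    intro x hx y hy hxy
    have := uf x hx y hy (by rw [Real.dist_eq]; linarith)
    rw [Real.dist_eq, abs_lt] at this
    linarith [this.2]
  have ug' : ∀ x ∈ Icc (-σ) σ, ∀ y ∈ Icc (-σ) σ, |x - y| ≤ 3 * δ → g x < g y + ε := by
    intro x hx y hy hxy
    have := ug x hx y hy (by rw [Real.dist_eq]; linarith)
    rw [Real.dist_eq, abs_lt] at this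
    linarith [this.2]
  refine ⟨δ, hδ, by linarith, by linarith, by linarith, ?_, ?_, ?_, ?_⟩
  · intro c1 hc1 c2 hc2 hc
    rcases le_total c1 c2 with hcc | hcc
    · calc f c1 * g c2 ≤ f c2 * g c2 := mul_le_mul_of_nonneg_right (mf hc1 hc2 hcc) (h c2 hc2).2.1
        _ < 1 := (h c2 hc2).2.2
    · have e1 : g c2 < g c1 + ε := ug' c2 hc2 c1 hc1 (by rw [abs_le]; constructor <;> linarith)
      calc f c1 * g c2 ≤ f c1 * (g c1 + ε) := mul_le_mul_of_nonneg_left e1.le (h c1 hc1).1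
        _ = f c1 * g c1 + f c1 * ε := by ring
        _ ≤ f c0 * g c0 + f σ * ε := add_le_add (hle c1 hc1)
            (mul_le_mul_of_nonneg_right (mf hc1 hr hc1.2) hε0'.le)
        _ < 1 := hε2
  · intro c hc hcc
    have e1 : g c < g σ + ε := ug' c hc σ hr (by rw [abs_le]; constructor <;> linarith [hc.2])
    rw [hg0, zero_add] at e1
    calc S * g c ≤ S * ε := mul_le_mul_of_nonneg_left e1.le hS
      _ < 1 := hε1
  · intro c hc hcc
    have e1 : f c < f (-σ) + ε := uf' c hc (-σ) hl (by rw [abs_le]; constructor <;> linarith [hc.1])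
    rw [hf0, zero_add] at e1
    calc f c * S ≤ ε * S := mul_le_mul_of_nonneg_right e1.le hS
      _ = S * ε := mul_comm _ _
      _ < 1 := hε1
  · have m1 : cu + 3 * δ ∈ Icc (-σ) σ := ⟨by linarith, by linarith⟩
    have m2 : cv - 3 * δ ∈ Icc (-σ) σ := ⟨by linarith, by linarith⟩
    have e1 : f (cu + 3 * δ) < f cu + ε := uf' _ m1 _ hcu (by rw [abs_le]; constructor <;> linarith)
    have e2 : g (cv - 3 * δ) < g cv + ε := ug' _ m2 _ hcv (by rw [abs_le]; constructor <;> linarith)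
    calc f (cu + 3 * δ) * g (cv - 3 * δ) ≤ (f cu + ε) * (g cv + ε) :=
          mul_le_mul e1.le e2.le (h _ m2).2.1 (by have := (h _ hcu).1; linarith)
      _ < 1 := hε3

end NODE

open NODE in
theorem t_NODE : S_NODE := by
  classical
  intro σ S f g hσ hS hf hg mf mg h hf0 hg0 cv cu h1 h2 h3 h4
  obtain ⟨δ, hδ, d1, d2, d3, hA, hB1, hB2, hC⟩ := mesh σ S f g hσ hf hg mf mg h hf0 hg0 (by linarith)
    cv cu h1 h2 h3 h4
  set good : ℝ → Prop := fun x => |x| < σ - δ / 2 ∧ (x < cv - δ / 2 ∨ cu + δ / 2 < x) with hgood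
  set M : ℤ := ⌈σ / δ⌉ with hM
  set K : Finset ℝ := ((Finset.Icc (-M) M).image (fun j : ℤ => (j : ℝ) * δ)).filter good with hK
  have memK : ∀ x, x ∈ K ↔ (∃ j : ℤ, (j : ℝ) * δ = x) ∧ good x := by
    intro x
    rw [hK, Finset.mem_filter, Finset.mem_image]
    constructor
    · rintro ⟨⟨j, -, hj⟩, hx⟩
      exact ⟨⟨j, hj⟩, hx⟩
    · rintro ⟨⟨j, hj⟩, hx⟩
      refine ⟨⟨j, ?_, hj⟩, hx⟩
      rw [Finset.mem_Icc]
      have hx1 : |(j : ℝ) * δ| < σ := by rw [hj]; linarith [hx.1]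
      rw [abs_mul, abs_of_pos hδ] at hx1
      have hx2 : |(j : ℝ)| ≤ (M : ℝ) := by
        have : |(j : ℝ)| < σ / δ := by rwa [lt_div_iff₀ hδ]
        exact this.le.trans (Int.le_ceil _)
      rw [abs_le] at hx2
      constructor
      · exact_mod_cast hx2.1
      · exact_mod_cast hx2.2
  refine ⟨K, δ / 8, by linarith, ?_, ?_, ?_, ?_⟩
  · intro κ hκ
    have := ((memK κ).1 hκ).2.1
    linarith
  · intro κ hκ κ' hκ' hne
    obtain ⟨⟨j, rfl⟩, -⟩ := (memK κ).1 hκ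
    obtain ⟨⟨j', rfl⟩, -⟩ := (memK κ').1 hκ'
    have hjj : j ≠ j' := by
      rintro rfl
      exact hne rfl
    rw [← sub_mul, abs_mul, abs_of_pos hδ]
    have e1 : (1 : ℝ) ≤ |(j : ℝ) - j'| := by
      have : 1 ≤ |j - j'| := Int.one_le_abs (sub_ne_zero.mpr hjj)
      exact_mod_cast this
    nlinarith
  · intro κ hκ
    rcases ((memK κ).1 hκ).2.2 with h | h
    · left; linarith
    · right; linarith
  · intro c2 hc2 c1 hc1 hno
    rcases le_or_gt (c1 - c2) (3 * δ) with hc | hc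
    · by_cases e1 : c1 = σ
      · have hn : c2 ≠ -σ := by
          rintro rfl
          rw [e1] at hc
          linarith
        rw [if_pos e1, if_neg hn]
        exact hB1 c2 hc2 (by rw [e1] at hc; linarith)
      · rw [if_neg e1]
        by_cases e2 : c2 = -σ
        · rw [if_pos e2]
          exact hB2 c1 hc1 (by rw [e2] at hc; linarith)
        · rw [if_neg e2]
          exact hA c1 hc1 c2 hc2 hc
    · have hv : cv - 3 * δ ≤ c2 := by
        by_contra hlt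
        push Not at hlt
        set j : ℤ := ⌈(c2 + δ) / δ⌉ with hj
        have j1 : c2 + δ ≤ (j : ℝ) * δ := by
          rw [← div_le_iff₀ hδ]; exact Int.le_ceil _
        have j2 : (j : ℝ) * δ < c2 + 2 * δ := by
          have : (j : ℝ) < (c2 + δ) / δ + 1 := Int.ceil_lt_add_one _
          calc (j : ℝ) * δ < ((c2 + δ) / δ + 1) * δ := mul_lt_mul_of_pos_right this hδ
            _ = c2 + 2 * δ := by field_simp; ring
        refine hno ((j : ℝ) * δ) ((memK _).2 ⟨⟨j, rfl⟩, ?_, ?_⟩) ⟨by linarith, by linarith⟩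
        · rw [abs_lt]
          constructor <;> linarith [hc2.1, hc1.2]
        · left; linarith
      have hu : c1 ≤ cu + 3 * δ := by
        by_contra hlt
        push Not at hlt
        set j : ℤ := ⌊(c1 - δ) / δ⌋ with hj
        have j1 : (j : ℝ) * δ ≤ c1 - δ := by
          rw [← le_div_iff₀ hδ]; exact Int.floor_le _
        have j2 : c1 - 2 * δ < (j : ℝ) * δ := by
          have : (c1 - δ) / δ - 1 < (j : ℝ) := Int.sub_one_lt_floor _
          calc c1 - 2 * δ = ((c1 - δ) / δ - 1) * δ := by field_simp; ring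
            _ < (j : ℝ) * δ := mul_lt_mul_of_pos_right this hδ
        refine hno ((j : ℝ) * δ) ((memK _).2 ⟨⟨j, rfl⟩, ?_, ?_⟩) ⟨by linarith, by linarith⟩
        · rw [abs_lt]
          constructor <;> linarith [hc2.1, hc1.2]
        · right; linarith
      have n1 : c1 ≠ σ := by
        rintro rfl
        linarith
      have n2 : c2 ≠ -σ := by
        rintro rfl
        linarith
      rw [if_neg n1, if_neg n2]
      have m1 : cu + 3 * δ ∈ Icc (-σ) σ := ⟨by linarith, by linarith⟩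
      have m2 : cv - 3 * δ ∈ Icc (-σ) σ := ⟨by linarith, by linarith⟩
      calc f c1 * g c2 ≤ f (cu + 3 * δ) * g (cv - 3 * δ) :=
            mul_le_mul (mf hc1 m1 hu) (mg m2 hc2 hv) (h c2 hc2).2.1 (h _ m1).1
        _ < 1 := hC

end Pool.Agent.NH97.OD
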