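import Pool.Agent.NH97.OD.Stm

/-! Project OD, job OD-8: the profile of the bands (helper86). -/

set_option autoImplicit false

open scoped ContDiff

namespace Pool.Agent.NH97.OD

namespace NPR

noncomputable def bp : ContDiffBump (0 : ℝ) := ⟨3 / 10, 1 / 2, by norm_num, by norm_num⟩

noncomputable def psi (t : ℝ) : ℝ := bp (t + 1 / 2) - bp (t - 1 / 2)

lemma psi_smooth : ContDiff ℝ ∞ psi := by
  unfold psi
  exact (bp.contDiff.comp (contDiff_id.add contDiff_const)).sub
    (bp.contDiff.comp (contDiff_id.sub contDiff_const))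

lemma psi_abs (t : ℝ) : |psi t| ≤ 1 := by
  unfold psi
  have h1 := bp.nonneg (x := t + 1 / 2)
  have h2 := bp.le_one (x := t + 1 / 2)
  have h3 := bp.nonneg (x := t - 1 / 2)
  have h4 := bp.le_one (x := t - 1 / 2)
  rw [abs_le]
  constructor <;> linarith

lemma b_zero {t : ℝ} (h : 1 / 2 ≤ |t|) : bp t = 0 := by
  apply bp.zero_of_le_dist
  rw [Real.dist_eq, sub_zero]
  exact h

lemma b_one {t : ℝ} (h : |t| ≤ 3 / 10) : bp t = 1 := by
  apply bp.one_of_mem_closedBall
  rw [Metric.mem_closedBall, Real.dist_eq, sub_zero]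
  exact h

lemma psi_zero {t : ℝ} (h : 1 ≤ |t|) : psi t = 0 := by
  unfold psi
  have h' := le_abs'.1 h
  rw [b_zero (t := t + 1 / 2), b_zero (t := t - 1 / 2), sub_zero]
  · rw [le_abs']
    rcases h' with h | h
    · left; linarith
    · right; linarith
  · rw [le_abs']
    rcases h' with h | h
    · left; linarith
    · right; linarith

lemma psi_neg {t : ℝ} (h1 : 1 / 5 ≤ t) (h2 : t ≤ 4 / 5) : psi t = -1 := by
  unfold psi
  rw [b_zero (t := t + 1 / 2), b_one (t := t - 1 / 2)]
  · norm_num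
  · rw [abs_le]
    constructor <;> linarith
  · rw [le_abs']
    right; linarith

lemma psi_pos {t : ℝ} (h1 : -(4 / 5) ≤ t) (h2 : t ≤ -(1 / 5)) : psi t = 1 := by
  unfold psi
  rw [b_one (t := t + 1 / 2), b_zero (t := t - 1 / 2)]
  · norm_num
  · rw [le_abs']
    left; linarith
  · rw [abs_le]
    constructor <;> linarith

end NPR

open NPR in
theorem t_NPR : S_NPR := by
  classical
  intro η K hη hK
  have key : ∀ κ ∈ K, ∀ c : ℝ, |c - κ| < η → ∑ κ' ∈ K, psi ((c - κ') / η) = psi ((c - κ) / η) := by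
    intro κ hκ c hc
    refine Finset.sum_eq_single κ (fun κ' hκ' hne => ?_) (fun h => absurd hκ h)
    apply psi_zero
    rw [abs_div, abs_of_pos hη, le_div_iff₀ hη, one_mul]
    have h1 := hK κ hκ κ' hκ' (Ne.symm hne)
    have h2 : |κ - κ'| ≤ |c - κ| + |c - κ'| := by
      have : κ - κ' = -(c - κ) + (c - κ') := by ring
      rw [this]
      refine (abs_add_le _ _).trans ?_
      rw [abs_neg]
    linarith
  have zero : ∀ c : ℝ, (∀ κ ∈ K, η ≤ |c - κ|) → ∑ κ' ∈ K, psi ((c - κ') / η) = 0 := by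
    intro c hc
    refine Finset.sum_eq_zero fun κ hκ => ?_
    apply psi_zero
    rw [abs_div, abs_of_pos hη, le_div_iff₀ hη, one_mul]
    exact hc κ hκ
  refine ⟨fun c => ∑ κ ∈ K, psi ((c - κ) / η), ?_, ?_, ?_, ?_, zero⟩
  · refine ContDiff.sum fun κ _ => ?_
    exact psi_smooth.comp ((contDiff_id.sub contDiff_const).div_const η)
  · intro c
    by_cases h : ∀ κ ∈ K, η ≤ |c - κ|
    · rw [show (fun c => ∑ κ ∈ K, psi ((c - κ) / η)) c = 0 from zero c h]
      simp
    · push Not at h
      obtain ⟨κ, hκ, hc⟩ := h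
      rw [show (fun c => ∑ κ ∈ K, psi ((c - κ) / η)) c = _ from key κ hκ c hc]
      exact psi_abs _
  · intro κ hκ c h1 h2
    have hc : |c - κ| < η := by
      rw [abs_lt]
      constructor <;> linarith
    rw [show (fun c => ∑ κ ∈ K, psi ((c - κ) / η)) c = _ from key κ hκ c hc]
    apply psi_neg
    · rw [le_div_iff₀ hη]; linarith
    · rw [div_le_iff₀ hη]; linarith
  · intro κ hκ c h1 h2
    have hc : |c - κ| < η := by
      rw [abs_lt]
      constructor <;> linarith
    rw [show (fun c => ∑ κ ∈ K, psi ((c - κ) / η)) c = _ from key κ hκ c hc]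
    apply psi_pos
    · rw [le_div_iff₀ hη]; linarith
    · rw [div_le_iff₀ hη]; linarith

end Pool.Agent.NH97.OD
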