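import Pool.Agent.NH97.OD.Stm

/-!
# Project OD, OD-13 PLANE: reflection of the label maps to the whole plane (helper20)
-/

set_option autoImplicit false

open scoped ContDiff Topology
open Set Filter

namespace Pool.Agent.NH97.OD

namespace PLANE

/-- the sign, one at zero -/
noncomputable def sg (x : ℝ) : ℝ := if 0 ≤ x then 1 else -1

theorem sg_mul_abs (x : ℝ) : sg x * |x| = x := by
  unfold sg
  split_ifs with h
  · rw [abs_of_nonneg h, one_mul]
  · rw [abs_of_neg (not_le.1 h)]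
    ring

theorem sg_mul_self (x : ℝ) : sg x * x = |x| := by
  unfold sg
  split_ifs with h
  · rw [abs_of_nonneg h, one_mul]
  · rw [abs_of_neg (not_le.1 h)]
    ring

theorem abs_sg (x : ℝ) : |sg x| = 1 := by
  unfold sg
  split_ifs <;> simp

theorem sg_sq (x : ℝ) : sg x * sg x = 1 := by
  unfold sg
  split_ifs <;> norm_num

theorem sg_of {x x0 : ℝ} (h : 0 < sg x0 * x) : sg x = sg x0 := by
  by_cases h0 : 0 ≤ x0
  · have e : sg x0 = 1 := if_pos h0
    rw [e, one_mul] at h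
    rw [e]
    exact if_pos h.le
  · have e : sg x0 = -1 := if_neg h0
    rw [e] at h
    rw [e]
    exact if_neg (by linarith)

theorem sg_zero : sg 0 = 1 := if_pos le_rfl

/-- the reflected map -/
noncomputable def F (A B : ℝ × ℝ → ℝ) (p : ℝ × ℝ) : ℝ × ℝ :=
  (sg p.1 * A (|p.1|, |p.2|), sg p.2 * B (|p.1|, |p.2|))

/-- the reflection -/
noncomputable def T (p0 : ℝ × ℝ) : ℝ × ℝ →L[ℝ] ℝ × ℝ :=
  (sg p0.1 • ContinuousLinearMap.fst ℝ ℝ ℝ).prod (sg p0.2 • ContinuousLinearMap.snd ℝ ℝ ℝ)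

theorem T_apply (p0 p : ℝ × ℝ) : T p0 p = (sg p0.1 * p.1, sg p0.2 * p.2) := rfl

theorem ev_in (A B : ℝ × ℝ → ℝ) {p0 : ℝ × ℝ} (h1 : p0.1 ≠ 0) (h2 : p0.2 ≠ 0) :
    F A B =ᶠ[𝓝 p0] fun p => (sg p0.1 * A (T p0 p), sg p0.2 * B (T p0 p)) := by
  have e1 : ∀ᶠ p : ℝ × ℝ in 𝓝 p0, 0 < sg p0.1 * p.1 := by
    have hc : Continuous fun p : ℝ × ℝ => sg p0.1 * p.1 := by fun_prop
    refine hc.continuousAt.eventually (lt_mem_nhds ?_)
    show 0 < sg p0.1 * p0.1
    rw [sg_mul_self]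
    exact abs_pos.2 h1
  have e2 : ∀ᶠ p : ℝ × ℝ in 𝓝 p0, 0 < sg p0.2 * p.2 := by
    have hc : Continuous fun p : ℝ × ℝ => sg p0.2 * p.2 := by fun_prop
    refine hc.continuousAt.eventually (lt_mem_nhds ?_)
    show 0 < sg p0.2 * p0.2
    rw [sg_mul_self]
    exact abs_pos.2 h2
  filter_upwards [e1, e2] with p g1 g2
  unfold F
  rw [T_apply, ← sg_mul_self p.1, ← sg_mul_self p.2, sg_of g1, sg_of g2]

theorem ev_out {A B : ℝ × ℝ → ℝ} (hd : ∀ r : ℝ, 0 < r → ∃ δ > 0, ∀ p : ℝ × ℝ, 0 ≤ p.1 → 0 ≤ p.2 →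
    p.1 + p.2 ≤ r → (p.1 < δ ∨ p.2 < δ) → A p = p.1 ∧ B p = p.2) {p0 : ℝ × ℝ}
    (h : p0.1 = 0 ∨ p0.2 = 0) : F A B =ᶠ[𝓝 p0] id := by
  obtain ⟨δ, hδ, h0⟩ := hd (|p0.1| + |p0.2| + 1) (by positivity)
  have e1 : ∀ᶠ p : ℝ × ℝ in 𝓝 p0, |p.1| + |p.2| < |p0.1| + |p0.2| + 1 := by
    have hc : Continuous fun p : ℝ × ℝ => |p.1| + |p.2| := by fun_prop
    exact hc.continuousAt.eventually (gt_mem_nhds (by linarith))
  have e2 : ∀ᶠ p : ℝ × ℝ in 𝓝 p0, |p.1| < δ ∨ |p.2| < δ := by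
    rcases h with h | h
    · have hc : Continuous fun p : ℝ × ℝ => |p.1| := by fun_prop
      have h5 : |p0.1| < δ := by
        rw [h, abs_zero]
        exact hδ
      have h6 : ∀ᶠ p : ℝ × ℝ in 𝓝 p0, |p.1| < δ := hc.continuousAt.eventually (gt_mem_nhds h5)
      exact h6.mono fun p hp => Or.inl hp
    · have hc : Continuous fun p : ℝ × ℝ => |p.2| := by fun_prop
      have h5 : |p0.2| < δ := by
        rw [h, abs_zero]
        exact hδ
      have h6 : ∀ᶠ p : ℝ × ℝ in 𝓝 p0, |p.2| < δ := hc.continuousAt.eventually (gt_mem_nhds h5)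
      exact h6.mono fun p hp => Or.inr hp
  filter_upwards [e1, e2] with p g1 g2
  obtain ⟨g3, g4⟩ := h0 (|p.1|, |p.2|) (abs_nonneg _) (abs_nonneg _) g1.le g2
  unfold F
  rw [g3, g4]
  show (sg p.1 * |p.1|, sg p.2 * |p.2|) = p
  rw [sg_mul_abs, sg_mul_abs]

end PLANE

open PLANE in
theorem t_PLANE (h : S_QUAD) : S_PLANE := by
  obtain ⟨A, B, hs, hd, hp, hi, ho⟩ := h
  -- the values on the axes
  have hA0 : ∀ p : ℝ × ℝ, 0 ≤ p.2 → p.1 = 0 → A p = 0 := by
    intro p h2 h1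
    obtain ⟨δ, hδ, h0⟩ := hd (p.1 + p.2 + 1) (by linarith)
    have := (h0 p h1.ge h2 (by linarith) (Or.inl (by rw [h1]; exact hδ))).1
    rw [this, h1]
  have hA1 : ∀ p : ℝ × ℝ, 0 ≤ p.1 → p.2 = 0 → A p = p.1 ∧ B p = 0 := by
    intro p h1 h2
    obtain ⟨δ, hδ, h0⟩ := hd (p.1 + p.2 + 1) (by linarith)
    have := h0 p h1 h2.ge (by linarith) (Or.inr (by rw [h2]; exact hδ))
    rw [this.1, this.2, h2]
    exact ⟨rfl, rfl⟩
  have hB1 : ∀ p : ℝ × ℝ, 0 ≤ p.2 → p.1 = 0 → B p = p.2 := by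
    intro p h2 h1
    obtain ⟨δ, hδ, h0⟩ := hd (p.1 + p.2 + 1) (by linarith)
    exact (h0 p h1.ge h2 (by linarith) (Or.inl (by rw [h1]; exact hδ))).2
  have hAp : ∀ p : ℝ × ℝ, 0 < p.1 → 0 ≤ p.2 → 0 < A p := by
    intro p h1 h2
    rcases h2.lt_or_eq with h2 | h2
    · exact (hp p h1 h2).1
    · rw [(hA1 p h1.le h2.symm).1]
      exact h1
  have hBp : ∀ p : ℝ × ℝ, 0 ≤ p.1 → 0 < p.2 → 0 < B p := by
    intro p h1 h2
    rcases h1.lt_or_eq with h1 | h1
    · exact (hp p h1 h2).2.1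
    · rw [hB1 p h2.le h1.symm]
      exact h2
  have hAn : ∀ p : ℝ × ℝ, 0 ≤ p.1 → 0 ≤ p.2 → 0 ≤ A p := by
    intro p h1 h2
    rcases h1.lt_or_eq with h1 | h1
    · exact (hAp p h1 h2).le
    · rw [hA0 p h2 h1.symm]
  have hBn : ∀ p : ℝ × ℝ, 0 ≤ p.1 → 0 ≤ p.2 → 0 ≤ B p := by
    intro p h1 h2
    rcases h2.lt_or_eq with h2 | h2
    · exact (hBp p h1 h2).le
    · rw [(hA1 p h1 h2.symm).2]
  have hAB : ∀ p : ℝ × ℝ, 0 ≤ p.1 → 0 ≤ p.2 → A p * B p < 1 := by
    intro p h1 h2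
    rcases h1.lt_or_eq with h1 | h1
    · rcases h2.lt_or_eq with h2 | h2
      · exact (hp p h1 h2).2.2
      · rw [(hA1 p h1.le h2.symm).2, mul_zero]
        exact one_pos
    · rw [hA0 p h2 h1.symm, zero_mul]
      exact one_pos
  -- signs
  have habs1 : ∀ p : ℝ × ℝ, |(F A B p).1| = A (|p.1|, |p.2|) := by
    intro p
    show |sg p.1 * A (|p.1|, |p.2|)| = _
    rw [abs_mul, abs_sg, one_mul, abs_of_nonneg (hAn _ (abs_nonneg _) (abs_nonneg _))]
  have habs2 : ∀ p : ℝ × ℝ, |(F A B p).2| = B (|p.1|, |p.2|) := by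
    intro p
    show |sg p.2 * B (|p.1|, |p.2|)| = _
    rw [abs_mul, abs_sg, one_mul, abs_of_nonneg (hBn _ (abs_nonneg _) (abs_nonneg _))]
  have hlocal : ∀ p0 : ℝ × ℝ, ContDiffAt ℝ ∞ (F A B) p0 ∧ ∃ α β μ : ℝ, 0 < α ∧ 0 < β ∧
      ∀ v : ℝ × ℝ, fderiv ℝ (F A B) p0 v = (α * (v.1 + μ * v.2), β * (-μ * v.1 + v.2)) := by
    intro p0
    by_cases h : p0.1 = 0 ∨ p0.2 = 0
    · have e := ev_out hd h
      refine ⟨contDiff_id.contDiffAt.congr_of_eventuallyEq e, 1, 1, 0, one_pos, one_pos,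
        fun v => ?_⟩
      rw [e.fderiv_eq, fderiv_id]
      show v = _
      ext <;> simp
    · rw [not_or] at h
      have e := ev_in A B h.1 h.2
      have hT : T p0 p0 = (|p0.1|, |p0.2|) := by
        rw [T_apply, sg_mul_self, sg_mul_self]
      obtain ⟨g1, g2, α, β, μ, hα, hβ, g3⟩ := hs (T p0 p0)
        (by rw [hT]; exact abs_pos.2 h.1) (by rw [hT]; exact abs_pos.2 h.2)
      have d1 : HasFDerivAt A (fderiv ℝ A (T p0 p0)) (T p0 p0) :=
        (g1.differentiableAt (by simp)).hasFDerivAt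
      have d2 : HasFDerivAt B (fderiv ℝ B (T p0 p0)) (T p0 p0) :=
        (g2.differentiableAt (by simp)).hasFDerivAt
      have d3 : HasFDerivAt (fun p => (sg p0.1 * A (T p0 p), sg p0.2 * B (T p0 p)))
          ((sg p0.1 • (fderiv ℝ A (T p0 p0)).comp (T p0)).prod
            (sg p0.2 • (fderiv ℝ B (T p0 p0)).comp (T p0))) p0 :=
        ((d1.comp p0 (T p0).hasFDerivAt).const_mul _).prodMk
          ((d2.comp p0 (T p0).hasFDerivAt).const_mul _)
      refine ⟨?_, α, β, sg p0.1 * sg p0.2 * μ, hα, hβ, fun v => ?_⟩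
      · refine ContDiffAt.congr_of_eventuallyEq ?_ e
        exact (contDiffAt_const.mul (g1.comp p0 (T p0).contDiff.contDiffAt)).prodMk
          (contDiffAt_const.mul (g2.comp p0 (T p0).contDiff.contDiffAt))
      · rw [e.fderiv_eq, d3.fderiv]
        show (sg p0.1 * fderiv ℝ A (T p0 p0) (T p0 v), sg p0.2 * fderiv ℝ B (T p0 p0) (T p0 v)) = _
        rw [(g3 _).1, (g3 _).2, T_apply]
        have s1 := sg_sq p0.1
        have s2 := sg_sq p0.2
        ext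
        · show sg p0.1 * (α * (sg p0.1 * v.1 + μ * (sg p0.2 * v.2))) =
            α * (v.1 + sg p0.1 * sg p0.2 * μ * v.2)
          linear_combination α * v.1 * s1
        · show sg p0.2 * (β * (-μ * (sg p0.1 * v.1) + sg p0.2 * v.2)) =
            β * (-(sg p0.1 * sg p0.2 * μ) * v.1 + v.2)
          linear_combination β * v.2 * s2
  refine ⟨F A B, contDiff_iff_contDiffAt.2 fun p => (hlocal p).1, ?_, ?_, fun p => (hlocal p).2⟩
  · intro p q hpq
    have a1 : A (|p.1|, |p.2|) = A (|q.1|, |q.2|) := by rw [← habs1, ← habs1, hpq]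
    have a2 : B (|p.1|, |p.2|) = B (|q.1|, |q.2|) := by rw [← habs2, ← habs2, hpq]
    have a3 := hi (|p.1|, |p.2|) (|q.1|, |q.2|) (abs_nonneg _) (abs_nonneg _) (abs_nonneg _)
      (abs_nonneg _) a1 a2
    obtain ⟨a4, a5⟩ := Prod.ext_iff.1 a3
    have a4 : |p.1| = |q.1| := a4
    have a5 : |p.2| = |q.2| := a5
    obtain ⟨b1, b2⟩ := Prod.ext_iff.1 hpq
    have b1 : sg p.1 * A (|p.1|, |p.2|) = sg q.1 * A (|q.1|, |q.2|) := b1
    have b2 : sg p.2 * B (|p.1|, |p.2|) = sg q.2 * B (|q.1|, |q.2|) := b2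
    refine Prod.ext ?_ ?_
    · by_cases h : p.1 = 0
      · rw [h, abs_zero] at a4
        rw [h, abs_eq_zero.1 a4.symm]
      · have c : 0 < A (|p.1|, |p.2|) := hAp _ (abs_pos.2 h) (abs_nonneg _)
        rw [← a1] at b1
        have := mul_right_cancel₀ c.ne' b1
        rw [← sg_mul_abs p.1, ← sg_mul_abs q.1, a4, this]
    · by_cases h : p.2 = 0
      · rw [h, abs_zero] at a5
        rw [h, abs_eq_zero.1 a5.symm]
      · have c : 0 < B (|p.1|, |p.2|) := hBp _ (abs_nonneg _) (abs_pos.2 h)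
        rw [← a2] at b2
        have := mul_right_cancel₀ c.ne' b2
        rw [← sg_mul_abs p.2, ← sg_mul_abs q.2, a5, this]
  · ext q
    show (q ∈ range (F A B)) ↔ |q.1 * q.2| < 1
    rw [mem_range]
    constructor
    · rintro ⟨p, rfl⟩
      rw [abs_mul, habs1, habs2]
      exact hAB _ (abs_nonneg _) (abs_nonneg _)
    · intro hq
      rw [abs_mul] at hq
      obtain ⟨p, p1, p2, p3, p4⟩ := ho |q.1| |q.2| (abs_nonneg _) (abs_nonneg _) hq
      refine ⟨(sg q.1 * p.1, sg q.2 * p.2), ?_⟩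
      have e1 : |sg q.1 * p.1| = p.1 := by rw [abs_mul, abs_sg, one_mul, abs_of_nonneg p1]
      have e2 : |sg q.2 * p.2| = p.2 := by rw [abs_mul, abs_sg, one_mul, abs_of_nonneg p2]
      refine Prod.ext ?_ ?_
      · show sg (sg q.1 * p.1) * A (|sg q.1 * p.1|, |sg q.2 * p.2|) = q.1
        rw [e1, e2]
        show sg (sg q.1 * p.1) * A p = q.1
        rcases p1.lt_or_eq with g | g
        · have : sg (sg q.1 * p.1) = sg q.1 := by
            refine sg_of ?_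
            rw [← mul_assoc, sg_sq, one_mul]
            exact g
          rw [this, p3, sg_mul_abs]
        · have : A p = 0 := hA0 p p2 g.symm
          rw [this] at p3
          rw [this, mul_zero, abs_eq_zero.1 p3.symm]
      · show sg (sg q.2 * p.2) * B (|sg q.1 * p.1|, |sg q.2 * p.2|) = q.2
        rw [e1, e2]
        show sg (sg q.2 * p.2) * B p = q.2
        rcases p2.lt_or_eq with g | g
        · have : sg (sg q.2 * p.2) = sg q.2 := by
            refine sg_of ?_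
            rw [← mul_assoc, sg_sq, one_mul]
            exact g
          rw [this, p4, sg_mul_abs]
        · have : B p = 0 := (hA1 p p1 g.symm).2
          rw [this] at p4
          rw [this, mul_zero, abs_eq_zero.1 p4.symm]

end Pool.Agent.NH97.OD
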