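import Pool.Agent.NH97.OD.Stm

set_option autoImplicit false

open scoped ContDiff

namespace Pool.Agent.NH97.OD

open Set

namespace POS

lemma contP {m : ℝ × ℝ → ℝ} {P : ℝ → ℝ × ℝ → ℝ} (h : Leaf m P) (p : ℝ × ℝ) :
    Continuous (fun t => P t p) :=
  continuous_iff_continuousAt.2 fun t => (h.deriv t p).continuousAt

lemma zero_left {σ : ℝ} {m : ℝ × ℝ → ℝ} (h : Adm σ m) (t : ℝ) : m (0, t) = 0 := by
  by_contra hne
  have h1 := h.supp (0, t) (subset_tsupport m hne)
  exact lt_irrefl _ h1.1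

lemma axis (h : S_UNIQ) {σ : ℝ} {m : ℝ × ℝ → ℝ} {P : ℝ → ℝ × ℝ → ℝ} (hA : Adm σ m)
    (hL : Leaf m P) (y t : ℝ) : P t (0, y) = 0 := by
  rcases le_total t y with ht | ht
  · rw [h.2 m P hL 0 t y ht (fun s _ => zero_left hA s) t]
    exact hL.init (0, t)
  · rw [← h.2 m P hL 0 y t ht (fun s _ => zero_left hA s) t]
    exact hL.init (0, t)

end POS

open POS

/-- OD-4 POS: the leaves of an admissible field in the closed quadrant. -/
theorem t_POS (h : S_UNIQ) : S_POS := by
  intro σ m P hA hL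
  have h1 : ∀ p : ℝ × ℝ, p.1 = 0 → ∀ t, P t p = 0 := by
    rintro ⟨x, y⟩ hx t
    have hx' : x = 0 := hx
    subst hx'
    exact axis h hA hL y t
  refine ⟨h1, ?_, ?_, ?_⟩
  · intro p hp t
    by_contra hcon
    push Not at hcon
    obtain ⟨t', ht'⟩ := mem_range_of_exists_le_of_exists_ge (c := (0 : ℝ)) (contP hL p)
      ⟨t, hcon⟩ ⟨p.2, by rw [hL.init p]; exact hp.le⟩
    have h2 := hL.trans t' p.2 p
    have h3 : P t' p = 0 := ht'
    rw [h3, h1 (0, t') rfl, hL.init p] at h2
    exact hp.ne h2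
  · intro p t1 t2 ht
    have hm := hA.le
    constructor
    · have hd : ∀ t, HasDerivAt (fun t => P t p + t) (-m (P t p, t) + 1) t := fun t =>
        (hL.deriv t p).add (hasDerivAt_id t)
      refine monotone_of_deriv_nonneg (fun t => (hd t).differentiableAt) (fun t => ?_) ht
      rw [(hd t).deriv]
      linarith [(abs_le.1 (hm (P t p, t))).2]
    · have hd : ∀ t, HasDerivAt (fun t => P t p - t) (-m (P t p, t) - 1) t := fun t =>
        (hL.deriv t p).sub (hasDerivAt_id t)
      refine antitone_of_deriv_nonpos (fun t => (hd t).differentiableAt) (fun t => ?_) ht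
      rw [(hd t).deriv]
      linarith [(abs_le.1 (hm (P t p, t))).1]
  · intro t x y x' hx
    by_contra hcon
    push Not at hcon
    have hc : Continuous (fun τ => P τ (x', y) - P τ (x, y)) :=
      (contP hL (x', y)).sub (contP hL (x, y))
    have hy1 : P y (x', y) = x' := hL.init (x', y)
    have hy2 : P y (x, y) = x := hL.init (x, y)
    obtain ⟨τ, hτ⟩ := mem_range_of_exists_le_of_exists_ge (c := (0 : ℝ)) hc
      ⟨t, by linarith⟩ ⟨y, by rw [hy1, hy2]; linarith⟩
    have h3 : P τ (x', y) = P τ (x, y) := by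
      have : P τ (x', y) - P τ (x, y) = 0 := hτ
      linarith
    have h4 := hL.trans τ t (x', y)
    have h5 := hL.trans τ t (x, y)
    rw [h3, h5] at h4
    exact absurd h4 hcon.ne'

end Pool.Agent.NH97.OD
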