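import Pool.Agent.NH97.OD.Stm

/-!
# OD-12 QUAD: the labels of the quadrant
-/

set_option autoImplicit false

open scoped ContDiff

namespace Pool.Agent.NH97.OD

open Set Filter Topology

namespace QUAD

theorem supp_sw (m : ℝ × ℝ → ℝ) (p : ℝ × ℝ) (hp : p ∈ tsupport (sw m)) : (p.2, p.1) ∈ tsupport m := by
  have h1 : Function.support (sw m) = (Homeomorph.prodComm ℝ ℝ) ⁻¹' (Function.support m) := by
    ext q
    simp only [sw, Function.mem_support, ne_eq, neg_eq_zero, mem_preimage]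
    exact Iff.rfl
  rw [tsupport, h1, ← Homeomorph.preimage_closure] at hp
  exact hp

theorem adm_sw {σ : ℝ} {m : ℝ × ℝ → ℝ} (h : Adm σ m) : Adm σ (sw m) := by
  refine ⟨?_, ?_, ?_, ?_⟩
  · exact (h.smooth.comp (contDiff_snd.prodMk contDiff_fst)).neg
  · have h1 : HasCompactSupport (m ∘ (Homeomorph.prodComm ℝ ℝ)) :=
      h.cpt.comp_homeomorph _
    exact h1.comp_left (g := fun x : ℝ => -x) neg_zero
  · intro p
    rw [sw, abs_neg]
    exact h.le _
  · intro p hp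
    have h1 := h.supp _ (supp_sw m p hp)
    exact ⟨h1.2.1, h1.1, by linarith [h1.2.2]⟩

theorem smooth0 {m : ℝ × ℝ → ℝ} {P : ℝ → ℝ × ℝ → ℝ} (h : Leaf m P) (t : ℝ) :
    ContDiff ℝ ∞ (fun p : ℝ × ℝ => P t p) := by
  have := h.smooth.comp (contDiff_const (c := t) |>.prodMk contDiff_id : ContDiff ℝ ∞ (fun p : ℝ × ℝ => (t, p)))
  exact this

/-- a compact set in the open quadrant has a positive distance from the axes -/
theorem delta {K : Set (ℝ × ℝ)} (hK : IsCompact K) (h : ∀ p ∈ K, 0 < p.1 ∧ 0 < p.2) :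
    ∃ δ > 0, ∀ p ∈ K, δ ≤ p.1 ∧ δ ≤ p.2 := by
  rcases K.eq_empty_or_nonempty with h0 | h0
  · exact ⟨1, one_pos, by rw [h0]; simp⟩
  · obtain ⟨q, hq, hmin⟩ := hK.exists_isMinOn h0 (f := fun p : ℝ × ℝ => min p.1 p.2)
      (by fun_prop)
    refine ⟨min q.1 q.2, lt_min (h q hq).1 (h q hq).2, fun p hp => ?_⟩
    have := hmin hp
    simp only [mem_setOf_eq] at this
    exact ⟨this.trans (min_le_left _ _), this.trans (min_le_right _ _)⟩

end QUAD

open QUAD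

theorem t_QUAD (h1 : S_FLOW) (h2 : S_UNIQ) (h3 : S_GRAD) (h4 : S_POS) (h5 : S_LOC) (h6 : S_SEQ) :
    S_QUAD := by
  obtain ⟨σ, m, hσ, hσn, hadm, hcomp, hinv, hsurj⟩ := h6
  choose P hP using fun n => h1 (m n) (hadm n).smooth (hadm n).cpt
  choose Q hQ using fun n => h1 (sw (m n)) (adm_sw (hadm n)).smooth (adm_sw (hadm n)).cpt
  -- agreement of fields
  have hagree : ∀ (s : ℝ) (k n : ℕ), s ≤ σ k → s ≤ σ n → ∀ p ∈ Tri s, m k p = m n p := by
    intro s k n hk hn p hp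
    rcases le_total k n with h | h
    · exact (hcomp k n h p ⟨hp.1, hp.2.1, hp.2.2.trans hk⟩).symm
    · exact hcomp n k h p ⟨hp.1, hp.2.1, hp.2.2.trans hn⟩
  have hagree' : ∀ (s : ℝ) (k n : ℕ), s ≤ σ k → s ≤ σ n → ∀ p ∈ Tri s, sw (m k) p = sw (m n) p := by
    intro s k n hk hn p hp
    simp only [sw]
    rw [hagree s k n hk hn (p.2, p.1) ⟨hp.2.1, hp.1, by simpa [add_comm] using hp.2.2⟩]
  have hceil : ∀ p : ℝ × ℝ, p.1 + p.2 < σ ⌈p.1 + p.2⌉₊ := fun p =>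
    lt_of_le_of_lt (Nat.le_ceil _) (hσn _)
  set A : ℝ × ℝ → ℝ := fun p => P ⌈p.1 + p.2⌉₊ 0 p with hA
  set B : ℝ × ℝ → ℝ := fun p => Q ⌈p.1 + p.2⌉₊ 0 (p.2, p.1) with hB
  have hAeq : ∀ (n : ℕ) (p : ℝ × ℝ), 0 ≤ p.1 → 0 ≤ p.2 → p.1 + p.2 ≤ σ n → A p = P n 0 p := by
    intro n p hp1 hp2 hpn
    exact h5 (p.1 + p.2) _ _ _ _ _ _ (hadm _) (hadm n) (hP _) (hP n)
      (hagree (p.1 + p.2) _ n (hceil p).le hpn) p ⟨hp1, hp2, le_refl _⟩ 0 ⟨le_refl _, hp2⟩
  have hBeq : ∀ (n : ℕ) (p : ℝ × ℝ), 0 ≤ p.1 → 0 ≤ p.2 → p.1 + p.2 ≤ σ n → B p = Q n 0 (p.2, p.1) := by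
    intro n p hp1 hp2 hpn
    exact h5 (p.1 + p.2) _ _ _ _ _ _ (adm_sw (hadm _)) (adm_sw (hadm n)) (hQ _) (hQ n)
      (hagree' (p.1 + p.2) _ n (hceil p).le hpn) (p.2, p.1) ⟨hp2, hp1, by simp [add_comm]⟩ 0 ⟨le_refl _, hp1⟩
  refine ⟨A, B, ?_, ?_, ?_, ?_, ?_⟩
  · -- (i)
    intro p hp1 hp2
    obtain ⟨n, hn⟩ : ∃ n, p.1 + p.2 < σ n := ⟨_, hceil p⟩
    have hnhd : ∀ᶠ q : ℝ × ℝ in 𝓝 p, 0 < q.1 ∧ 0 < q.2 ∧ q.1 + q.2 < σ n := by
      refine (continuous_fst.continuousAt.eventually (eventually_gt_nhds hp1)).and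
        ((continuous_snd.continuousAt.eventually (eventually_gt_nhds hp2)).and ?_)
      exact ((continuous_fst.add continuous_snd).continuousAt.eventually (eventually_lt_nhds hn))
    have eA : A =ᶠ[𝓝 p] fun q => P n 0 q := by
      filter_upwards [hnhd] with q hq
      exact hAeq n q hq.1.le hq.2.1.le hq.2.2.le
    have eB : B =ᶠ[𝓝 p] fun q => Q n 0 (q.2, q.1) := by
      filter_upwards [hnhd] with q hq
      exact hBeq n q hq.1.le hq.2.1.le hq.2.2.le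
    have sB : ContDiff ℝ ∞ (fun q : ℝ × ℝ => Q n 0 (q.2, q.1)) :=
      (smooth0 (hQ n) 0).comp (contDiff_snd.prodMk contDiff_fst)
    refine ⟨(smooth0 (hP n) 0).contDiffAt.congr_of_eventuallyEq eA, sB.contDiffAt.congr_of_eventuallyEq eB, ?_⟩
    obtain ⟨α, hα, hα'⟩ := h3 (m n) (P n) (hP n) p
    obtain ⟨β, hβ, hβ'⟩ := h3 (sw (m n)) (Q n) (hQ n) (p.2, p.1)
    refine ⟨α, β, m n p, hα, hβ, fun v => ⟨?_, ?_⟩⟩
    · rw [eA.fderiv_eq]
      exact hα' v
    · rw [eB.fderiv_eq]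
      have hd : HasFDerivAt (fun q : ℝ × ℝ => (q.2, q.1))
          ((ContinuousLinearMap.snd ℝ ℝ ℝ).prod (ContinuousLinearMap.fst ℝ ℝ ℝ)) p :=
        hasFDerivAt_snd.prodMk hasFDerivAt_fst
      have hd2 : HasFDerivAt (fun q : ℝ × ℝ => Q n 0 q) (fderiv ℝ (fun q : ℝ × ℝ => Q n 0 q) (p.2, p.1))
          ((fun q : ℝ × ℝ => (q.2, q.1)) p) :=
        ((smooth0 (hQ n) 0).differentiable (by simp) _).hasFDerivAt
      have hd3 := (hd2.comp p hd).fderiv
      have : fderiv ℝ (fun q : ℝ × ℝ => Q n 0 (q.2, q.1)) p v =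
          fderiv ℝ (fun q : ℝ × ℝ => Q n 0 q) (p.2, p.1) (v.2, v.1) := by
        change fderiv ℝ ((fun q : ℝ × ℝ => Q n 0 q) ∘ (fun q : ℝ × ℝ => (q.2, q.1))) p v = _
        rw [hd3]
        rfl
      rw [this, hβ']
      simp only [sw]
      ring
  · -- (ii)
    intro r hr
    obtain ⟨n, hn⟩ : ∃ n, r ≤ σ n := ⟨⌈r⌉₊, (Nat.le_ceil _).trans (hσn _).le⟩
    obtain ⟨δ, hδ, hδ'⟩ := delta (K := tsupport (m n)) (hadm n).cpt
      (fun p hp => ⟨((hadm n).supp p hp).1, ((hadm n).supp p hp).2.1⟩)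
    have hz : ∀ q : ℝ × ℝ, q.1 < δ ∨ q.2 < δ → m n q = 0 := by
      intro q hq
      apply image_eq_zero_of_notMem_tsupport
      intro hcon
      have := hδ' q hcon
      rcases hq with h | h
      · linarith [this.1]
      · linarith [this.2]
    refine ⟨δ, hδ, fun p hp1 hp2 hpr hp => ⟨?_, ?_⟩⟩
    · rw [hAeq n p hp1 hp2 (hpr.trans hn)]
      have h7 := h2.2 (m n) (P n) (hP n) p.1 0 p.2 hp2 (by
        intro t ht
        apply hz
        rcases hp with h | h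
        · left; exact h
        · right; exact lt_of_le_of_lt ht.2 h) 0
      have h8 := (hP n).init (p.1, 0)
      rw [show p = (p.1, p.2) from rfl, h7]
      exact h8
    · rw [hBeq n p hp1 hp2 (hpr.trans hn)]
      have h7 := h2.2 (sw (m n)) (Q n) (hQ n) p.2 0 p.1 hp1 (by
        intro t ht
        simp only [sw, neg_eq_zero]
        apply hz
        rcases hp with h | h
        · left; exact lt_of_le_of_lt ht.2 h
        · right; exact h) 0
      have h8 := (hQ n).init (p.2, 0)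
      rw [h7]
      exact h8
  · -- (iii)
    intro p hp1 hp2
    have hn := (hceil p).le
    refine ⟨?_, ?_, ?_⟩
    · exact (h4 _ _ _ (hadm _) (hP _)).2.1 p hp1 0
    · exact (h4 _ _ _ (adm_sw (hadm _)) (hQ _)).2.1 (p.2, p.1) hp2 0
    · exact hinv _ _ _ (hP _) (hQ _) p ⟨hp1.le, hp2.le, hn⟩
  · -- (iv)
    have key : ∀ p q : ℝ × ℝ, 0 ≤ p.1 → 0 ≤ p.2 → 0 ≤ q.1 → 0 ≤ q.2 → A p = A q → B p = B q →
        p.2 ≤ q.2 → p = q := by
      intro p q hp1 hp2 hq1 hq2 hAB hBB hpq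
      obtain ⟨n, hn⟩ : ∃ n, max (p.1 + p.2) (q.1 + q.2) ≤ σ n := ⟨⌈_⌉₊, (Nat.le_ceil _).trans (hσn _).le⟩
      have hnp := (le_max_left _ _).trans hn
      have hnq := (le_max_right _ _).trans hn
      rw [hAeq n p hp1 hp2 hnp, hAeq n q hq1 hq2 hnq] at hAB
      rw [hBeq n p hp1 hp2 hnp, hBeq n q hq1 hq2 hnq] at hBB
      have ep : P n p.2 (P n 0 p, 0) = p.1 := by rw [(hP n).trans, (hP n).init]
      have eq : P n q.2 (P n 0 q, 0) = q.1 := by rw [(hP n).trans, (hP n).init]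
      rw [← hAB] at eq
      rcases hpq.eq_or_lt with h | h
      · rw [h, eq] at ep
        exact Prod.ext ep.symm h
      · exfalso
        set a := P n 0 p with ha
        have hmono : StrictMono (fun t : ℝ => Q n 0 (t, P n t (a, 0))) := by
          have hder : ∀ t : ℝ, ∃ d : ℝ, 0 < d ∧ HasDerivAt (fun t : ℝ => Q n 0 (t, P n t (a, 0))) d t := by
            intro t
            obtain ⟨β, hβ, hβ'⟩ := h3 (sw (m n)) (Q n) (hQ n) (t, P n t (a, 0))
            have hd1 : HasDerivAt (fun t : ℝ => (t, P n t (a, 0))) ((1 : ℝ), -m n (P n t (a, 0), t)) t :=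
              (hasDerivAt_id t).prodMk ((hP n).deriv t (a, 0))
            have hd2 : HasFDerivAt (fun q : ℝ × ℝ => Q n 0 q)
                (fderiv ℝ (fun q : ℝ × ℝ => Q n 0 q) (t, P n t (a, 0))) (t, P n t (a, 0)) :=
              ((smooth0 (hQ n) 0).differentiable (by simp) _).hasFDerivAt
            have hd3 := hd2.comp_hasDerivAt t hd1
            refine ⟨_, ?_, hd3⟩
            rw [hβ']
            simp only [sw]
            have : 0 ≤ (-m n (P n t (a, 0), t)) * (-m n (P n t (a, 0), t)) := mul_self_nonneg _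
            exact mul_pos hβ (by linarith)
          choose d hd hd' using hder
          exact strictMono_of_hasDerivAt_pos hd' hd
        have h9 := hmono h
        simp only at h9
        rw [ep, eq] at h9
        linarith
    intro p q hp1 hp2 hq1 hq2 hAB hBB
    rcases le_total p.2 q.2 with h | h
    · exact key p q hp1 hp2 hq1 hq2 hAB hBB h
    · exact (key q p hq1 hq2 hp1 hp2 hAB.symm hBB.symm h).symm
  · -- (v)
    intro a b ha hb hab
    obtain ⟨n, hn⟩ := hsurj a b ha hb hab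
    obtain ⟨p, hp, hpa, hpb⟩ := hn _ _ (hP n) (hQ n)
    refine ⟨p, hp.1, hp.2.1, ?_, ?_⟩
    · rw [hAeq n p hp.1 hp.2.1 hp.2.2, hpa]
    · rw [hBeq n p hp.1 hp.2.1 hp.2.2, hpb]

end Pool.Agent.NH97.OD
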