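import Pool.Agent.NH97.OD.Stm

/-!
OD-11 (helper75): the sequence of the fields.
-/

set_option autoImplicit false
set_option linter.unusedVariables false

open scoped ContDiff

namespace Pool.Agent.NH97.OD

open Set

namespace SEQ

/-- the states of the construction -/
structure St where
  σ : ℝ
  m : ℝ × ℝ → ℝ
  one : 1 ≤ σ
  adm : Adm σ m
  inv : Inv σ m

/-- the pair `(a, b)` of labels is attained -/
def Att (s : St) (a b : ℝ) : Prop := ∀ P Q : ℝ → ℝ × ℝ → ℝ, Leaf s.m P → Leaf (sw s.m) Q →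
  ∃ p ∈ Tri s.σ, P 0 p = a ∧ Q 0 (p.2, p.1) = b

lemma step (h4 : S_STAGE) (s : St) (a b : ℝ) : ∃ s' : St, s'.σ = 2 * s.σ + 2 ∧
    (∀ p ∈ Tri s.σ, s'.m p = s.m p) ∧
    (0 ≤ a → a < s.σ → 0 ≤ b → b < s.σ → a * b < 1 → Att s' a b) := by
  have hpos : 0 < s.σ := by linarith [s.one]
  by_cases h : 0 ≤ a ∧ a < s.σ ∧ 0 ≤ b ∧ b < s.σ ∧ a * b < 1
  · obtain ⟨k1, k2, k3, k4, k5⟩ := h
    obtain ⟨m', c1, c2, c3, c4⟩ := h4 s.σ s.m hpos s.adm s.inv a b k1 k2 k3 k4 k5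
    exact ⟨⟨2 * s.σ + 2, m', by linarith, c1, c3⟩, rfl, c2, fun _ _ _ _ _ => c4⟩
  · obtain ⟨m', c1, c2, c3, c4⟩ := h4 s.σ s.m hpos s.adm s.inv 0 0 le_rfl hpos le_rfl hpos
      (by norm_num)
    exact ⟨⟨2 * s.σ + 2, m', by linarith, c1, c3⟩, rfl, c2,
      fun k1 k2 k3 k4 k5 => absurd ⟨k1, k2, k3, k4, k5⟩ h⟩

lemma vert (h2 : S_UNIQ) {m : ℝ × ℝ → ℝ} {P : ℝ → ℝ × ℝ → ℝ} (hP : Leaf m P)
    (hm : ∀ q, m q = 0) {x y : ℝ} (hy : 0 ≤ y) : P 0 (x, y) = x := by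
  rw [h2.2 m P hP x 0 y hy (fun t _ => hm _) 0]
  exact hP.init (x, 0)

lemma start (h2 : S_UNIQ) : ∃ s : St, s.σ = 1 := by
  refine ⟨⟨1, 0, le_rfl, ⟨contDiff_const, HasCompactSupport.zero, fun p => by simp, ?_⟩, ?_⟩, rfl⟩
  · intro p hp
    rw [tsupport_zero] at hp
    exact absurd hp (notMem_empty p)
  · intro P Q hP hQ p hp
    obtain ⟨p1, p2, p3⟩ := hp
    have e1 : P 0 p = p.1 := vert h2 hP (fun q => rfl) p2
    have e2 : Q 0 (p.2, p.1) = p.2 := vert h2 hQ (fun q => by simp [sw]) p1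
    rw [e1, e2]
    nlinarith

lemma ratpair {a b : ℝ} (ha : 0 ≤ a) (hb : 0 ≤ b) (hab : a * b < 1) :
    ∃ a' b' : ℚ, a < a' ∧ b < b' ∧ (a' : ℝ) * b' < 1 := by
  obtain ⟨δ, hδ, hδ1, hδ2⟩ : ∃ δ : ℝ, 0 < δ ∧ δ ≤ 1 ∧ δ * (a + b + 1) < 1 - a * b := by
    refine ⟨min 1 ((1 - a * b) / (2 * (a + b + 1))), lt_min one_pos ?_, min_le_left _ _, ?_⟩
    · exact div_pos (by linarith) (by linarith)
    · have h1 : 0 < a + b + 1 := by linarith
      calc min 1 ((1 - a * b) / (2 * (a + b + 1))) * (a + b + 1) ≤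
          (1 - a * b) / (2 * (a + b + 1)) * (a + b + 1) :=
            mul_le_mul_of_nonneg_right (min_le_right _ _) h1.le
        _ = (1 - a * b) / 2 := by field_simp
        _ < 1 - a * b := by linarith
  obtain ⟨a', h1, h2⟩ := exists_rat_btwn (by linarith : a < a + δ)
  obtain ⟨b', h3, h4⟩ := exists_rat_btwn (by linarith : b < b + δ)
  refine ⟨a', b', h1, h3, ?_⟩
  have h5 : (a' : ℝ) * b' ≤ (a + δ) * (b + δ) :=
    mul_le_mul h2.le h4.le (by linarith) (by linarith)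
  nlinarith

lemma Tri_mono {σ σ' : ℝ} (h : σ ≤ σ') : Tri σ ⊆ Tri σ' := fun p hp =>
  ⟨hp.1, hp.2.1, hp.2.2.trans h⟩

end SEQ

open SEQ in
theorem t_SEQ (h1 : S_FLOW) (h2 : S_UNIQ) (h3 : S_LOC) (h4 : S_STAGE) (h5 : S_DOWN) : S_SEQ := by
  obtain ⟨s0, hs0⟩ := start h2
  obtain ⟨g, hg⟩ := exists_surjective_nat (ℚ × ℚ)
  choose nx hnx1 hnx2 hnx3 using step h4
  let st : ℕ → St := fun n => Nat.rec s0
    (fun n s => nx s ((g n.unpair.1).1 : ℝ) ((g n.unpair.1).2 : ℝ)) n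
  have hst : ∀ n, st (n + 1) = nx (st n) ((g n.unpair.1).1 : ℝ) ((g n.unpair.1).2 : ℝ) :=
    fun n => rfl
  have hσ : ∀ n, (st (n + 1)).σ = 2 * (st n).σ + 2 := fun n => by rw [hst, hnx1]
  have hmono : StrictMono fun n => (st n).σ := by
    refine strictMono_nat_of_lt_succ fun n => ?_
    show (st n).σ < (st (n + 1)).σ
    rw [hσ]
    linarith [(st n).one]
  have hlt : ∀ n : ℕ, (n : ℝ) < (st n).σ := by
    intro n
    induction n with
    | zero =>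
      rw [Nat.cast_zero]
      linarith [(st 0).one]
    | succ n ih =>
      rw [hσ]
      push_cast
      linarith [(st n).one]
  have hagree : ∀ n k, n ≤ k → ∀ p ∈ Tri (st n).σ, (st k).m p = (st n).m p := by
    intro n k hnk
    induction k, hnk using Nat.le_induction with
    | base => exact fun p _ => rfl
    | succ k hk ih =>
      intro p hp
      rw [← ih p hp, hst]
      exact hnx2 _ _ _ p (Tri_mono (hmono.monotone hk) hp)
  refine ⟨fun n => (st n).σ, fun n => (st n).m, hmono, hlt, fun n => (st n).adm, hagree,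
    fun n => (st n).inv, ?_⟩
  intro a b ha hb hab
  obtain ⟨a', b', k1, k2, k3⟩ := ratpair ha hb hab
  obtain ⟨k, hk⟩ := hg (a', b')
  obtain ⟨j, hj⟩ := exists_nat_gt (max (a' : ℝ) b')
  have hj1 : (a' : ℝ) < j := (le_max_left _ _).trans_lt hj
  have hj2 : (b' : ℝ) < j := (le_max_right _ _).trans_lt hj
  have hn : ((Nat.pair k j : ℕ) : ℝ) < (st (Nat.pair k j)).σ := hlt _
  have hjn : (j : ℝ) ≤ ((Nat.pair k j : ℕ) : ℝ) := by exact_mod_cast Nat.right_le_pair k j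
  have hatt : Att (st (Nat.pair k j + 1)) a' b' := by
    have e := hst (Nat.pair k j)
    rw [Nat.unpair_pair] at e
    dsimp only at e
    rw [hk] at e
    rw [e]
    exact hnx3 (st (Nat.pair k j)) a' b' (by linarith) (by linarith) (by linarith) (by linarith) k3
  refine ⟨Nat.pair k j + 1, fun P Q hP hQ => ?_⟩
  obtain ⟨p, hp, e1, e2⟩ := hatt P Q hP hQ
  exact h5 _ _ _ P Q (st (Nat.pair k j + 1)).adm hP hQ p hp a b ha (by rw [e1]; exact k1.le) hb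
    (by rw [e2]; exact k2.le)

end Pool.Agent.NH97.OD
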