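import Pool.Agent.NH97.OD.Stm

set_option autoImplicit false

open scoped ContDiff

namespace Pool.Agent.NH97.OD

open Set

/-- the labels are constant along the curves tangent to the field -/
lemma UNIQ.key (m : ℝ × ℝ → ℝ) (P : ℝ → ℝ × ℝ → ℝ) (hP : Leaf m P) (γ : ℝ → ℝ) (t0 t1 : ℝ)
    (h01 : t0 ≤ t1) (hγ : ∀ t ∈ Icc t0 t1, HasDerivAt γ (-m (γ t, t)) t) (s : ℝ) :
    P s (γ t1, t1) = P s (γ t0, t0) := by
  have hF : Differentiable ℝ (fun p => P s p) := by
    have h1 : ContDiff ℝ ∞ (fun p : ℝ × ℝ => P s p) :=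
      hP.smooth.comp (contDiff_const.prodMk contDiff_id)
    exact h1.differentiable (by norm_num)
  have h0 : ∀ p : ℝ × ℝ, fderiv ℝ (fun p => P s p) p (-m p, 1) = 0 := by
    intro p
    have h1 : HasDerivAt (fun r => (P r p, r)) (-m (P p.2 p, p.2), (1 : ℝ)) p.2 :=
      (hP.deriv p.2 p).prodMk (hasDerivAt_id p.2)
    have h2 := HasFDerivAt.comp_hasDerivAt (f := fun r => (P r p, r)) p.2
      (hF (P p.2 p, p.2)).hasFDerivAt h1
    have h3 : ((fun p => P s p) ∘ fun r => (P r p, r)) = fun _ => P s p := by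
      funext r
      exact hP.trans r s p
    rw [h3, hP.init p] at h2
    exact (h2.unique (hasDerivAt_const p.2 (P s p)))
  have h5 : ∀ t ∈ Icc t0 t1, HasDerivAt (fun t => P s (γ t, t)) 0 t := by
    intro t ht
    have h1 : HasDerivAt (fun r => (γ r, r)) (-m (γ t, t), (1 : ℝ)) t :=
      (hγ t ht).prodMk (hasDerivAt_id t)
    have h2 := HasFDerivAt.comp_hasDerivAt (f := fun r => (γ r, r)) t
      (hF (γ t, t)).hasFDerivAt h1
    rw [h0] at h2
    exact h2
  exact constant_of_has_deriv_right_zero (fun t ht => (h5 t ht).continuousAt.continuousWithinAt)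
    (fun t ht => (h5 t ⟨ht.1, ht.2.le⟩).hasDerivWithinAt) t1 (right_mem_Icc.2 h01)

theorem t_UNIQ : S_UNIQ := by
  refine ⟨fun m P hP γ t0 t1 h01 hγ => ⟨?_, UNIQ.key m P hP γ t0 t1 h01 hγ⟩,
    fun m P hP x t0 t1 h01 h0 s => ?_⟩
  · have h1 := UNIQ.key m P hP γ t0 t1 h01 hγ t1
    rw [hP.init (γ t1, t1)] at h1
    exact h1
  · refine UNIQ.key m P hP (fun _ => x) t0 t1 h01 (fun t ht => ?_) s
    rw [h0 t ht, neg_zero]
    exact hasDerivAt_const t x

end Pool.Agent.NH97.OD
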