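import Pool.Agent.NH97.OD.FIN0
import Pool.Agent.NH97.OD.FLOW
import Pool.Agent.NH97.OD.UNIQ
import Pool.Agent.NH97.OD.GRAD
import Pool.Agent.NH97.OD.POS
import Pool.Agent.NH97.OD.LOC
import Pool.Agent.NH97.OD.BAR
import Pool.Agent.NH97.OD.CHI
import Pool.Agent.NH97.OD.NPR
import Pool.Agent.NH97.OD.NODE
import Pool.Agent.NH97.OD.EXT
import Pool.Agent.NH97.OD.INVS
import Pool.Agent.NH97.OD.CRS
import Pool.Agent.NH97.OD.DOWN
import Pool.Agent.NH97.OD.STAGE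
import Pool.Agent.NH97.OD.SEQ
import Pool.Agent.NH97.OD.QUAD
import Pool.Agent.NH97.OD.PLANE

/-!
# Project OD: the assembly
-/

set_option autoImplicit false

open scoped ContDiff

namespace Pool.Agent.NH97.OD

theorem s_pos : S_POS := t_POS t_UNIQ

theorem s_loc : S_LOC := t_LOC t_UNIQ s_pos

theorem s_down : S_DOWN := t_DOWN s_pos

theorem s_stage : S_STAGE := t_STAGE t_FLOW s_pos s_loc t_CHI t_NPR t_NODE t_EXT
  (t_INVS t_UNIQ s_pos s_loc t_BAR) (t_CRS t_UNIQ s_pos s_loc) s_down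

theorem s_plane : S_PLANE := t_PLANE (t_QUAD t_FLOW t_UNIQ t_GRAD s_pos s_loc
  (t_SEQ t_FLOW t_UNIQ s_loc s_stage s_down))

end Pool.Agent.NH97.OD
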