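import Pool.Agent.NH97.OD.DISC

/-!
# Project OD: the length distance of the metric

The metric `E du² + G dv²` of the disc is isometric to the plane, so its length distance is the
Euclidean distance of the images, and it is complete.
-/

set_option autoImplicit false

open scoped ContDiff Topology

namespace Pool.Agent.NH97.OD

open Set Filter

/-- the theorem of the file `DISC`, with the inverse map -/
theorem disc_inv (h : S_PLANE) : ∃ (E G : ℝ × ℝ → ℝ) (X Y : ℝ × ℝ → ℝ) (f : ℝ × ℝ → ℝ × ℝ),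
    ContDiffOn ℝ ∞ E Disc ∧ ContDiffOn ℝ ∞ G Disc ∧ ContDiffOn ℝ ∞ X Disc ∧ ContDiffOn ℝ ∞ Y Disc ∧
    (∀ p ∈ Disc, 0 < E p ∧ 0 < G p) ∧
    (∀ p ∈ Disc, ∀ v w : ℝ × ℝ, fderiv ℝ X p v * fderiv ℝ X p w +
      fderiv ℝ Y p v * fderiv ℝ Y p w = E p * v.1 * w.1 + G p * v.2 * w.2) ∧
    ContDiff ℝ ∞ f ∧ (∀ p, f p ∈ Disc) ∧ (∀ p, X (f p) = p.1 ∧ Y (f p) = p.2) ∧
    ∀ q ∈ Disc, f (X q, Y q) = q := by
  obtain ⟨F, hF, hinj, hrange, hder⟩ := h
  set f := DISC.f F with hf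
  have f1 : ContDiff ℝ ∞ f := DISC.f_smooth hF
  have f2 : Function.Injective f := DISC.f_inj hinj
  have f3 : range f = Disc := DISC.f_range hrange
  have f4 : ∀ p, ∃ α β μ : ℝ, 0 < α ∧ 0 < β ∧ ∀ v : ℝ × ℝ,
      fderiv ℝ f p v = (α * (v.1 + μ * v.2), β * (-μ * v.1 + v.2)) :=
    fun p => DISC.f_deriv hF p (hder p)
  set Φ := Function.invFun f with hΦ
  have key : ∀ q ∈ Disc, ContDiffAt ℝ ∞ Φ q ∧ ∃ α β μ : ℝ, 0 < α ∧ 0 < β ∧ ∀ w : ℝ × ℝ,
      fderiv ℝ Φ q w =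
      ((w.1 / α - μ * w.2 / β) / (1 + μ ^ 2), (μ * w.1 / α + w.2 / β) / (1 + μ ^ 2)) := by
    intro q hq
    rw [← f3] at hq
    obtain ⟨p, rfl⟩ := hq
    obtain ⟨α, β, μ, hα, hβ, hv⟩ := f4 p
    obtain ⟨h1, h2⟩ := DISC.inverse f1 f2 p hα hβ hv
    exact ⟨h1, α, β, μ, hα, hβ, h2⟩
  have hXY : ∀ q ∈ Disc, ContDiffAt ℝ ∞ (fun q => (Φ q).1) q ∧ ContDiffAt ℝ ∞ (fun q => (Φ q).2) q :=
    fun q hq => ⟨(key q hq).1.fst, (key q hq).1.snd⟩
  have hX : ContDiffOn ℝ ∞ (fun q => (Φ q).1) Disc := fun q hq => (hXY q hq).1.contDiffWithinAt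
  have hY : ContDiffOn ℝ ∞ (fun q => (Φ q).2) Disc := fun q hq => (hXY q hq).2.contDiffWithinAt
  have hX' := hX.fderiv_of_isOpen DISC.disc_open (m := ∞) (by simp)
  have hY' := hY.fderiv_of_isOpen DISC.disc_open (m := ∞) (by simp)
  have dX : ∀ q ∈ Disc, ∀ w, fderiv ℝ (fun q => (Φ q).1) q w = (fderiv ℝ Φ q w).1 := by
    intro q hq w
    have h1 : HasFDerivAt Φ (fderiv ℝ Φ q) q :=
      ((key q hq).1.differentiableAt (by simp)).hasFDerivAt
    rw [h1.fst.fderiv]; rfl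
  have dY : ∀ q ∈ Disc, ∀ w, fderiv ℝ (fun q => (Φ q).2) q w = (fderiv ℝ Φ q w).2 := by
    intro q hq w
    have h1 : HasFDerivAt Φ (fderiv ℝ Φ q) q :=
      ((key q hq).1.differentiableAt (by simp)).hasFDerivAt
    rw [h1.snd.fderiv]; rfl
  refine ⟨fun q => (fderiv ℝ (fun q => (Φ q).1) q (1, 0)) ^ 2 +
      (fderiv ℝ (fun q => (Φ q).2) q (1, 0)) ^ 2,
    fun q => (fderiv ℝ (fun q => (Φ q).1) q (0, 1)) ^ 2 +
      (fderiv ℝ (fun q => (Φ q).2) q (0, 1)) ^ 2,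
    fun q => (Φ q).1, fun q => (Φ q).2, f, ?_, ?_, hX, hY, ?_, ?_, f1, ?_, ?_, ?_⟩
  · exact ((hX'.clm_apply contDiffOn_const).pow 2).add ((hY'.clm_apply contDiffOn_const).pow 2)
  · exact ((hX'.clm_apply contDiffOn_const).pow 2).add ((hY'.clm_apply contDiffOn_const).pow 2)
  · intro q hq
    obtain ⟨-, α, β, μ, hα, hβ, hw⟩ := key q hq
    have hD : 0 < 1 + μ ^ 2 := DISC.pos μ
    simp only [dX q hq, dY q hq, hw]
    constructor
    · have : (0 : ℝ) < ((1 : ℝ) / α - μ * 0 / β) / (1 + μ ^ 2) := by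
        simp only [mul_zero, zero_div, sub_zero]; positivity
      positivity
    · have : (0 : ℝ) < (μ * 0 / α + 1 / β) / (1 + μ ^ 2) := by
        simp only [mul_zero, zero_div, zero_add]; positivity
      positivity
  · intro q hq v w
    obtain ⟨-, α, β, μ, hα, hβ, hw⟩ := key q hq
    have hD : 0 < 1 + μ ^ 2 := DISC.pos μ
    simp only [dX q hq, dY q hq, hw]
    field_simp
    ring
  · intro p
    rw [← f3]
    exact mem_range_self p
  · intro p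
    have : Φ (f p) = p := Function.leftInverse_invFun f2 p
    simp only [this, and_self]
  · intro q hq
    rw [← f3] at hq
    obtain ⟨p, rfl⟩ := hq
    have : Φ (f p) = p := Function.leftInverse_invFun f2 p
    simp only [this]


/-- the length of the curve `γ` on `[0, 1]` for the metric `E du² + G dv²` -/
noncomputable def len (E G : ℝ × ℝ → ℝ) (γ : ℝ → ℝ × ℝ) : ℝ :=
  ∫ t in (0 : ℝ)..1, √(E (γ t) * (deriv γ t).1 ^ 2 + G (γ t) * (deriv γ t).2 ^ 2)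

/-- the length distance on the disc: the infimum of the lengths of the curves of class `C¹` from `p`
to `q` in the disc -/
noncomputable def dis (E G : ℝ × ℝ → ℝ) (p q : ℝ × ℝ) : ℝ :=
  sInf {L : ℝ | ∃ γ : ℝ → ℝ × ℝ, ContDiff ℝ 1 γ ∧ (∀ t ∈ Icc (0 : ℝ) 1, γ t ∈ Disc) ∧ γ 0 = p ∧
    γ 1 = q ∧ L = len E G γ}

/-- the metric `E du² + G dv²` is complete: every Cauchy sequence of points of the disc for the length
distance converges to a point of the disc -/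
def Cmpl (E G : ℝ × ℝ → ℝ) : Prop := ∀ s : ℕ → ℝ × ℝ, (∀ n, s n ∈ Disc) →
  (∀ ε : ℝ, 0 < ε → ∃ N : ℕ, ∀ m n : ℕ, N ≤ m → N ≤ n → dis E G (s m) (s n) < ε) →
  ∃ q ∈ Disc, Tendsto (fun n => dis E G (s n) q) atTop (𝓝 0)

namespace FIN

variable {E G X Y : ℝ × ℝ → ℝ}

/-- the isometry condition -/
def Iso (E G X Y : ℝ × ℝ → ℝ) : Prop := ∀ p ∈ Disc, ∀ v w : ℝ × ℝ,
  fderiv ℝ X p v * fderiv ℝ X p w + fderiv ℝ Y p v * fderiv ℝ Y p w = E p * v.1 * w.1 + G p * v.2 * w.2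

lemma iso_sq (h : Iso E G X Y) {p : ℝ × ℝ} (hp : p ∈ Disc) (v : ℝ × ℝ) :
    (fderiv ℝ X p v) ^ 2 + (fderiv ℝ Y p v) ^ 2 = E p * v.1 ^ 2 + G p * v.2 ^ 2 := by
  have := h p hp v v
  linear_combination this

lemma dcomp (hX : ContDiffOn ℝ ∞ X Disc) {γ : ℝ → ℝ × ℝ} (hγ : ContDiff ℝ 1 γ) {t : ℝ}
    (ht : γ t ∈ Disc) : HasDerivAt (fun t => X (γ t)) (fderiv ℝ X (γ t) (deriv γ t)) t := by
  have h1 : HasFDerivAt X (fderiv ℝ X (γ t)) (γ t) :=
    ((hX.contDiffAt (DISC.disc_open.mem_nhds ht)).differentiableAt (by simp)).hasFDerivAt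
  have h2 : HasDerivAt γ (deriv γ t) t := ((hγ.differentiable (by simp)) t).hasDerivAt
  exact h1.comp_hasDerivAt t h2

lemma ccomp (hX : ContDiffOn ℝ ∞ X Disc) {γ : ℝ → ℝ × ℝ} (hγ : ContDiff ℝ 1 γ)
    (hD : ∀ t ∈ Icc (0 : ℝ) 1, γ t ∈ Disc) :
    ContinuousOn (fun t => fderiv ℝ X (γ t) (deriv γ t)) (Icc (0 : ℝ) 1) := by
  have h1 : ContinuousOn (fderiv ℝ X) Disc := hX.continuousOn_fderiv_of_isOpen DISC.disc_open (by simp)
  have h2 : ContinuousOn (fun t => fderiv ℝ X (γ t)) (Icc (0 : ℝ) 1) :=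
    h1.comp hγ.continuous.continuousOn hD
  exact h2.clm_apply (hγ.continuous_deriv le_rfl).continuousOn

/-- curves are not shorter than the distance of the images of the endpoints -/
lemma len_ge (hX : ContDiffOn ℝ ∞ X Disc) (hY : ContDiffOn ℝ ∞ Y Disc) (h : Iso E G X Y)
    {γ : ℝ → ℝ × ℝ} (hγ : ContDiff ℝ 1 γ) (hD : ∀ t ∈ Icc (0 : ℝ) 1, γ t ∈ Disc) :
    √((X (γ 0) - X (γ 1)) ^ 2 + (Y (γ 0) - Y (γ 1)) ^ 2) ≤ len E G γ := by
  set z : ℝ → ℂ := fun t => ((X (γ t) : ℝ) : ℂ) + ((Y (γ t) : ℝ) : ℂ) * Complex.I with hz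
  set z' : ℝ → ℂ := fun t => ((fderiv ℝ X (γ t) (deriv γ t) : ℝ) : ℂ) +
    ((fderiv ℝ Y (γ t) (deriv γ t) : ℝ) : ℂ) * Complex.I with hz'
  have h01 : uIcc (0 : ℝ) 1 = Icc 0 1 := uIcc_of_le zero_le_one
  have hd : ∀ t ∈ uIcc (0 : ℝ) 1, HasDerivAt z (z' t) t := by
    intro t ht
    rw [h01] at ht
    exact (dcomp hX hγ (hD t ht)).ofReal_comp.add
      ((dcomp hY hγ (hD t ht)).ofReal_comp.mul_const Complex.I)
  have hc : ContinuousOn z' (Icc (0 : ℝ) 1) := by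
    refine ContinuousOn.add ?_ (ContinuousOn.mul ?_ continuousOn_const)
    · exact Complex.continuous_ofReal.comp_continuousOn (ccomp hX hγ hD)
    · exact Complex.continuous_ofReal.comp_continuousOn (ccomp hY hγ hD)
  have hi : IntervalIntegrable z' MeasureTheory.volume 0 1 := by
    apply ContinuousOn.intervalIntegrable
    rw [h01]
    exact hc
  have h1 := intervalIntegral.integral_eq_sub_of_hasDerivAt hd hi
  have h2 : ‖∫ t in (0 : ℝ)..1, z' t‖ ≤ ∫ t in (0 : ℝ)..1, ‖z' t‖ :=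
    intervalIntegral.norm_integral_le_integral_norm zero_le_one
  have h3 : ∫ t in (0 : ℝ)..1, ‖z' t‖ = len E G γ := by
    unfold len
    apply intervalIntegral.integral_congr
    intro t ht
    rw [h01] at ht
    show ‖z' t‖ = √(E (γ t) * (deriv γ t).1 ^ 2 + G (γ t) * (deriv γ t).2 ^ 2)
    rw [hz', ← iso_sq h (hD t ht)]
    exact Complex.norm_add_mul_I _ _
  have h4 : ‖z 1 - z 0‖ = √((X (γ 0) - X (γ 1)) ^ 2 + (Y (γ 0) - Y (γ 1)) ^ 2) := by
    have e : z 1 - z 0 = ((X (γ 1) - X (γ 0) : ℝ) : ℂ) + ((Y (γ 1) - Y (γ 0) : ℝ) : ℂ) * Complex.I := by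
      rw [hz]
      push_cast
      ring
    rw [e, Complex.norm_add_mul_I]
    congr 1
    ring
  rw [← h4, ← h1, ← h3]
  exact h2

/-- the length distance -/
lemma dis_eq (hX : ContDiffOn ℝ ∞ X Disc) (hY : ContDiffOn ℝ ∞ Y Disc) (h : Iso E G X Y)
    {f : ℝ × ℝ → ℝ × ℝ} (hf : ContDiff ℝ ∞ f) (hfD : ∀ p, f p ∈ Disc)
    (hf1 : ∀ p, X (f p) = p.1 ∧ Y (f p) = p.2) (hf2 : ∀ q ∈ Disc, f (X q, Y q) = q)
    {p q : ℝ × ℝ} (hp : p ∈ Disc) (hq : q ∈ Disc) :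
    dis E G p q = √((X p - X q) ^ 2 + (Y p - Y q) ^ 2) := by
  refine IsLeast.csInf_eq ⟨?_, ?_⟩
  · set δ : ℝ → ℝ × ℝ := fun t => (X p + t * (X q - X p), Y p + t * (Y q - Y p)) with hδ
    have hδs : ContDiff ℝ ∞ δ := by
      rw [hδ]
      fun_prop
    have hγ : ContDiff ℝ 1 (fun t => f (δ t)) := (hf.comp hδs).of_le (by simp)
    refine ⟨fun t => f (δ t), hγ, fun t _ => hfD _, ?_, ?_, ?_⟩
    · have : δ 0 = (X p, Y p) := by
        rw [hδ]
        simp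
      simp only [this]
      exact hf2 p hp
    · have : δ 1 = (X q, Y q) := by
        rw [hδ]
        simp
      simp only [this]
      exact hf2 q hq
    · have e : ∀ t : ℝ, √(E (f (δ t)) * (deriv (fun t => f (δ t)) t).1 ^ 2 +
          G (f (δ t)) * (deriv (fun t => f (δ t)) t).2 ^ 2) =
          √((X p - X q) ^ 2 + (Y p - Y q) ^ 2) := by
        intro t
        have h1 := dcomp (γ := fun t => f (δ t)) hX hγ (hfD (δ t))
        have h2 := dcomp (γ := fun t => f (δ t)) hY hγ (hfD (δ t))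
        have h3 : (fun t => X (f (δ t))) = fun t => X p + t * (X q - X p) := by
          funext t
          exact (hf1 (δ t)).1
        have h4 : (fun t => Y (f (δ t))) = fun t => Y p + t * (Y q - Y p) := by
          funext t
          exact (hf1 (δ t)).2
        rw [h3] at h1
        rw [h4] at h2
        have h5 : HasDerivAt (fun t => X p + t * (X q - X p)) (X q - X p) t := by
          simpa using ((hasDerivAt_id t).mul_const (X q - X p)).const_add (X p)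
        have h6 : HasDerivAt (fun t => Y p + t * (Y q - Y p)) (Y q - Y p) t := by
          simpa using ((hasDerivAt_id t).mul_const (Y q - Y p)).const_add (Y p)
        have h7 := h1.unique h5
        have h8 := h2.unique h6
        rw [← iso_sq h (hfD (δ t))]
        rw [h7, h8]
        congr 1
        ring
      unfold len
      rw [intervalIntegral.integral_congr (fun t _ => e t)]
      simp
  · rintro L ⟨γ, hγ, hD, h0, h1, rfl⟩
    have := len_ge hX hY h hγ hD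
    rwa [h0, h1] at this

/-- completeness -/
lemma cmpl (hX : ContDiffOn ℝ ∞ X Disc) (hY : ContDiffOn ℝ ∞ Y Disc) (h : Iso E G X Y)
    {f : ℝ × ℝ → ℝ × ℝ} (hf : ContDiff ℝ ∞ f) (hfD : ∀ p, f p ∈ Disc)
    (hf1 : ∀ p, X (f p) = p.1 ∧ Y (f p) = p.2) (hf2 : ∀ q ∈ Disc, f (X q, Y q) = q) :
    Cmpl E G := by
  intro s hs hc
  have hdis : ∀ {p q : ℝ × ℝ}, p ∈ Disc → q ∈ Disc →
      dis E G p q = √((X p - X q) ^ 2 + (Y p - Y q) ^ 2) := fun hp hq =>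
    dis_eq hX hY h hf hfD hf1 hf2 hp hq
  set z : ℕ → ℂ := fun n => ((X (s n) : ℝ) : ℂ) + ((Y (s n) : ℝ) : ℂ) * Complex.I with hz
  have hzn : ∀ (n : ℕ) (a b : ℝ), ‖z n - ((a : ℂ) + (b : ℂ) * Complex.I)‖ =
      √((X (s n) - a) ^ 2 + (Y (s n) - b) ^ 2) := by
    intro n a b
    have e : z n - ((a : ℂ) + (b : ℂ) * Complex.I) =
        ((X (s n) - a : ℝ) : ℂ) + ((Y (s n) - b : ℝ) : ℂ) * Complex.I := by
      rw [hz]
      push_cast
      ring
    rw [e, Complex.norm_add_mul_I]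
  have hcz : CauchySeq z := by
    rw [Metric.cauchySeq_iff]
    intro ε hε
    obtain ⟨N, hN⟩ := hc ε hε
    refine ⟨N, fun m hm n hn => ?_⟩
    have := hN m n hm hn
    rw [hdis (hs m) (hs n)] at this
    rw [dist_eq_norm, show z n = ((X (s n) : ℝ) : ℂ) + ((Y (s n) : ℝ) : ℂ) * Complex.I from rfl, hzn]
    exact this
  obtain ⟨w, hw⟩ := cauchySeq_tendsto_of_complete hcz
  refine ⟨f (w.re, w.im), hfD _, ?_⟩
  have h1 : Tendsto (fun n => ‖z n - w‖) atTop (𝓝 0) := by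
    have := (hw.sub_const w).norm
    simpa using this
  refine h1.congr fun n => ?_
  rw [hdis (hs n) (hfD _), (hf1 _).1, (hf1 _).2, ← hzn]
  rw [Complex.re_add_im]

end FIN

/-- the main theorem from the theorem on the plane -/
theorem final (h : S_PLANE) : ∃ E G X Y : ℝ × ℝ → ℝ, ContDiffOn ℝ ∞ E Disc ∧
    ContDiffOn ℝ ∞ G Disc ∧ (∀ p ∈ Disc, 0 < E p ∧ 0 < G p) ∧ Cmpl E G ∧
    ContDiffOn ℝ ∞ X Disc ∧ ContDiffOn ℝ ∞ Y Disc ∧ BijOn (fun p => (X p, Y p)) Disc univ ∧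
    (∀ p ∈ Disc, ∀ v w : ℝ × ℝ, fderiv ℝ X p v * fderiv ℝ X p w +
      fderiv ℝ Y p v * fderiv ℝ Y p w = E p * v.1 * w.1 + G p * v.2 * w.2) ∧
    ∀ p ∈ Disc, ∀ q ∈ Disc, dis E G p q = √((X p - X q) ^ 2 + (Y p - Y q) ^ 2) := by
  obtain ⟨E, G, X, Y, f, hE, hG, hX, hY, hpos, hiso, hf, hfD, hf1, hf2⟩ := disc_inv h
  refine ⟨E, G, X, Y, hE, hG, hpos, FIN.cmpl hX hY hiso hf hfD hf1 hf2, hX, hY, ?_, hiso,
    fun p hp q hq => FIN.dis_eq hX hY hiso hf hfD hf1 hf2 hp hq⟩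
  refine ⟨fun q _ => mem_univ _, fun q hq q' hq' hqq => ?_, fun p _ => ⟨f p, hfD p, ?_⟩⟩
  · simp only [Prod.mk.injEq] at hqq
    rw [← hf2 q hq, ← hf2 q' hq', hqq.1, hqq.2]
  · simp only [(hf1 p).1, (hf1 p).2]

end Pool.Agent.NH97.OD
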