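import Pool.Agent.NH97.OD.Stm

/-!
# Project OD: OD-10 STAGE, the step of the construction
-/

set_option autoImplicit false

open scoped ContDiff

namespace Pool.Agent.NH97.OD

open Set

namespace STAGE

/-- the swapped field is admissible -/
lemma adm_sw {σ : ℝ} {m : ℝ × ℝ → ℝ} (h : Adm σ m) : Adm σ (sw m) := by
  have e : sw m = fun q => -(m ∘ (Homeomorph.prodComm ℝ ℝ)) q := by
    funext q
    rfl
  refine ⟨?_, ?_, ?_, ?_⟩
  · unfold sw
    exact (h.smooth.comp (contDiff_snd.prodMk contDiff_fst)).neg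
  · rw [e]
    exact (h.cpt.comp_homeomorph (Homeomorph.prodComm ℝ ℝ)).neg
  · intro p
    unfold sw
    rw [abs_neg]
    exact h.le _
  · intro p hp
    have h1 : p ∈ tsupport (m ∘ (Homeomorph.prodComm ℝ ℝ)) := by
      rw [e] at hp
      have h2 : tsupport (fun q => -(m ∘ (Homeomorph.prodComm ℝ ℝ)) q) =
          tsupport (m ∘ (Homeomorph.prodComm ℝ ℝ)) := by
        unfold tsupport
        congr 1
        ext x
        simp
      rwa [h2] at hp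
    have h3 : (p.2, p.1) ∈ tsupport m := by
      have h4 : tsupport (m ∘ (Homeomorph.prodComm ℝ ℝ)) ⊆
          (Homeomorph.prodComm ℝ ℝ) ⁻¹' tsupport m := tsupport_comp_subset_preimage m
        (Homeomorph.prodComm ℝ ℝ).continuous
      exact h4 h1
    obtain ⟨h5, h6, h7⟩ := h.supp _ h3
    exact ⟨h6, h5, by simpa [add_comm] using h7⟩

/-- the label is monotone along the line -/
lemma mono (h3 : S_POS) {σ : ℝ} {m : ℝ × ℝ → ℝ} {P : ℝ → ℝ × ℝ → ℝ} (hm : Adm σ m)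
    (hP : Leaf m P) : Monotone fun c : ℝ => P 0 ((σ + c) / 2, (σ - c) / 2) := by
  intro c c' hc
  obtain ⟨-, -, h5, h6⟩ := h3 σ m P hm hP
  have h7 := (h5 ((σ + c) / 2, (σ - c) / 2) ((σ - c') / 2) ((σ - c) / 2) (by linarith)).1
  have h8 : P ((σ - c) / 2) ((σ + c) / 2, (σ - c) / 2) = (σ + c) / 2 :=
    hP.init ((σ + c) / 2, (σ - c) / 2)
  rw [h8] at h7
  have h9 := h6 0 (P ((σ - c') / 2) ((σ + c) / 2, (σ - c) / 2)) ((σ - c') / 2) ((σ + c') / 2)
    (by linarith)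
  rw [hP.trans] at h9
  exact h9

lemma cont {σ : ℝ} {m : ℝ × ℝ → ℝ} {P : ℝ → ℝ × ℝ → ℝ} (hP : Leaf m P) :
    Continuous fun c : ℝ => P 0 ((σ + c) / 2, (σ - c) / 2) := by
  have h := hP.smooth.continuous
  have h2 : Continuous fun c : ℝ => ((0 : ℝ), (((σ + c) / 2, (σ - c) / 2) : ℝ × ℝ)) := by
    fun_prop
  exact h.comp h2

lemma nonneg (h3 : S_POS) {σ : ℝ} {m : ℝ × ℝ → ℝ} {P : ℝ → ℝ × ℝ → ℝ} (hm : Adm σ m)
    (hP : Leaf m P) {p : ℝ × ℝ} (hp : 0 ≤ p.1) : 0 ≤ P 0 p := by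
  obtain ⟨h1, h2, -, -⟩ := h3 σ m P hm hP
  rcases hp.eq_or_lt with h | h
  · rw [h1 p h.symm 0]
  · exact (h2 p h 0).le

lemma theta {σ η : ℝ} (K : Finset ℝ) (h : ∀ κ ∈ K, |κ| + η < σ) :
    ∃ θ : ℝ, 0 < θ ∧ ∀ κ ∈ K, |κ| + η + θ ≤ σ := by
  classical
  rcases K.eq_empty_or_nonempty with h0 | h0
  · subst h0
    exact ⟨1, one_pos, fun κ hκ => absurd hκ (Finset.notMem_empty _)⟩
  · obtain ⟨κ₀, h1, h2⟩ := Finset.exists_max_image K (fun κ => |κ|) h0
    refine ⟨σ - (|κ₀| + η), by linarith [h κ₀ h1], fun κ hκ => ?_⟩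
    have := h2 κ hκ
    linarith

end STAGE

open STAGE

theorem t_STAGE (h1 : S_FLOW) (h3 : S_POS) (h4 : S_LOC) (h5 : S_CHI) (h6 : S_NPR) (h7 : S_NODE)
    (h8 : S_EXT) (h9 : S_INVS) (h10 : S_CRS) (h11 : S_DOWN) : S_STAGE := by
  intro σ m hσ hm hI a b ha0 haσ hb0 hbσ hab
  have hm' : Adm σ (sw m) := adm_sw hm
  obtain ⟨P, hP⟩ := h1 m hm.smooth hm.cpt
  obtain ⟨Q, hQ⟩ := h1 (sw m) hm'.smooth hm'.cpt
  set f : ℝ → ℝ := fun c => P 0 ((σ + c) / 2, (σ - c) / 2) with hf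
  set g : ℝ → ℝ := fun c => Q 0 ((σ - c) / 2, (σ + c) / 2) with hg
  have hgf : ∀ c, g c = (fun c : ℝ => Q 0 ((σ + c) / 2, (σ - c) / 2)) (-c) := by
    intro c
    show Q 0 ((σ - c) / 2, (σ + c) / 2) = Q 0 ((σ + -c) / 2, (σ - -c) / 2)
    rw [sub_neg_eq_add, ← sub_eq_add_neg]
  have fmono : Monotone f := mono h3 hm hP
  have ganti : Antitone g := by
    intro c c' hc
    rw [hgf, hgf]
    exact mono h3 hm' hQ (neg_le_neg hc)
  have fcont : Continuous f := cont hP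
  have gcont : Continuous g := by
    have : g = (fun c : ℝ => Q 0 ((σ + c) / 2, (σ - c) / 2)) ∘ fun c => -c := by
      funext c
      exact hgf c
    rw [this]
    exact (cont hQ).comp continuous_neg
  have hF : ∀ c ∈ Icc (-σ) σ, (((σ + c) / 2, (σ - c) / 2) : ℝ × ℝ) ∈ Tri σ := by
    intro c hc
    exact ⟨by linarith [hc.1], by linarith [hc.2], by linarith⟩
  have hfg : ∀ c ∈ Icc (-σ) σ, 0 ≤ f c ∧ 0 ≤ g c ∧ f c * g c < 1 := by
    intro c hc
    refine ⟨nonneg h3 hm hP (hF c hc).1, nonneg h3 hm' hQ (hF c hc).2.1, ?_⟩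
    exact hI P Q hP hQ _ (hF c hc)
  have f0 : f (-σ) = 0 := (h3 σ m P hm hP).1 _ (by show (σ + -σ) / 2 = 0; ring) 0
  have g0 : g σ = 0 := (h3 σ (sw m) Q hm' hQ).1 _ (by show (σ - σ) / 2 = 0; ring) 0
  have f1 : f σ = σ := by
    show P 0 ((σ + σ) / 2, (σ - σ) / 2) = σ
    have e : (((σ + σ) / 2, (σ - σ) / 2) : ℝ × ℝ) = (σ, 0) := by
      ext <;> simp
    rw [e]
    exact hP.init (σ, 0)
  have g1 : g (-σ) = σ := by
    show Q 0 ((σ - -σ) / 2, (σ + -σ) / 2) = σ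
    have e : (((σ - -σ) / 2, (σ + -σ) / 2) : ℝ × ℝ) = (σ, 0) := by
      ext <;> simp
    rw [e]
    exact hQ.init (σ, 0)
  have hle : -σ ≤ σ := by linarith
  obtain ⟨cu, hcu, hcua⟩ : ∃ c ∈ Icc (-σ) σ, f c = a := by
    have := intermediate_value_Icc hle fcont.continuousOn
    rw [f0, f1] at this
    exact this ⟨ha0, haσ.le⟩
  obtain ⟨cv, hcv, hcvb⟩ : ∃ c ∈ Icc (-σ) σ, g c = b := by
    have := intermediate_value_Icc' hle gcont.continuousOn
    rw [g0, g1] at this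
    exact this ⟨hb0, hbσ.le⟩
  have hcuσ : cu < σ := by
    rcases hcu.2.eq_or_lt with h | h
    · rw [h, f1] at hcua
      exact absurd hcua (ne_of_gt haσ)
    · exact h
  have hcvσ : -σ < cv := by
    rcases hcv.1.eq_or_lt with h | h
    · rw [← h, g1] at hcvb
      exact absurd hcvb (ne_of_gt hbσ)
    · exact h
  -- the parameters of the gap
  obtain ⟨cv', cu', hv1, hv2, hv3, hv4, hv5⟩ : ∃ cv' cu' : ℝ, -σ < cv' ∧ cv' ≤ cu' ∧ cu' < σ ∧
      f cu' * g cv' < 1 ∧ (cv ≤ cu → cv' = cv ∧ cu' = cu) := by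
    by_cases h : cv ≤ cu
    · exact ⟨cv, cu, hcvσ, h, hcuσ, by rw [hcua, hcvb]; exact hab, fun _ => ⟨rfl, rfl⟩⟩
    · exact ⟨0, 0, by linarith, le_rfl, hσ, (hfg 0 ⟨by linarith, by linarith⟩).2.2,
        fun h' => absurd h' h⟩
  set S : ℝ := 2 * σ + 2 with hS
  obtain ⟨K, η, hη, hK1, hK2, hK3, hK4⟩ := h7 σ S f g hσ (by rw [hS]; linarith) fcont.continuousOn
    gcont.continuousOn (fmono.monotoneOn _) (ganti.antitoneOn _) hfg f0 g0 cv' cu' hv1 hv2 hv3 hv4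
  obtain ⟨N, hN1, hN2, hN3, hN4, hN5⟩ := h6 η K hη hK2
  obtain ⟨χ, R, hχ1, hχ2, hχ3, hχ4, hR1, hR2⟩ := h5 σ S (η / 2) (by rw [hS]; linarith)
    (by linarith)
  obtain ⟨θ, hθ, hθK⟩ := theta K hK1
  have hNθ : ∀ c, σ - θ ≤ |c| → N c = 0 := by
    intro c hc
    refine hN5 c fun κ hκ => ?_
    have h := hθK κ hκ
    have h' := abs_sub_abs_le_abs_sub c κ
    linarith
  obtain ⟨hE1, hE2, hE3⟩ := h8 σ S θ m χ N hσ (by rw [hS]; linarith) hθ hm hχ1 hχ2 hχ3 hχ4 hN1 hN2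
    hNθ
  have hst : Stg σ S m χ R N K η :=
    { pos := hσ
      lt := by rw [hS]; linarith
      adm := hm
      adm' := hE1
      below := hE2
      above := hE3
      chi := hχ2
      deriv := hR1
      rem := hR2
      eta := hη
      right := hN3
      left := hN4
      inside := hK1 }
  refine ⟨ext m χ N, hE1, fun p hp => hE2 p hp.2.2, ?_, ?_⟩
  · exact h9 σ S m χ R N K η P Q hst hP hQ hI hK4
  · intro P' Q' hP' hQ'
    by_cases h : cv ≤ cu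
    · obtain ⟨e1, e2⟩ := hv5 h
      rw [e1, e2] at hK3
      obtain ⟨p, hp, hp1, hp2⟩ := h10 σ S m χ R N K η P Q P' Q' hst hP hQ hP' hQ'
        (by rw [hS]; linarith) cv cu hcv.1 h hcu.2 (fun c hc1 hc2 => hN5 c fun κ hκ => by
          rcases hK3 κ hκ with h' | h'
          · rw [abs_of_pos (by linarith)]
            linarith
          · rw [abs_of_neg (by linarith)]
            linarith)
      exact ⟨p, hp, hp1.trans hcua, hp2.trans hcvb⟩
    · push Not at h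
      obtain ⟨q, hq, hq1, hq2⟩ := h11 σ σ m P Q hm hP hQ ((σ + cv) / 2, (σ - cv) / 2) (hF cv hcv) a b
        ha0 (by rw [← hcua]; exact fmono h.le) hb0 (le_of_eq hcvb.symm)
      have hagree : ∀ p ∈ Tri σ, m p = ext m χ N p := fun p hp => (hE2 p hp.2.2).symm
      have hagree' : ∀ p ∈ Tri σ, sw m p = sw (ext m χ N) p := by
        intro p hp
        unfold sw
        rw [hagree (p.2, p.1) ⟨hp.2.1, hp.1, by have := hp.2.2; simp only; linarith⟩]
      have e1 := h4 σ σ S m (ext m χ N) P P' hm hE1 hP hP' hagree q hq 0 ⟨le_rfl, hq.2.1⟩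
      have e2 := h4 σ σ S (sw m) (sw (ext m χ N)) Q Q' hm' (adm_sw hE1) hQ hQ' hagree' (q.2, q.1)
        ⟨hq.2.1, hq.1, by have := hq.2.2; simp only; linarith⟩ 0 ⟨le_rfl, hq.1⟩
      refine ⟨q, ⟨hq.1, hq.2.1, ?_⟩, ?_, ?_⟩
      · have := hq.2.2
        rw [hS]
        linarith
      · rw [← e1, hq1]
      · rw [← e2, hq2]

end Pool.Agent.NH97.OD
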