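import Mathlib

/-!
# Project OD (helper97): a complete flat metric on the disc in orthogonal coordinates

Problem MP_a5fed0_gt. We construct an orthogonal net of the plane from a smooth function
`m : ℝ × ℝ → ℝ`. The `u`-leaves are the graphs `x = x(y)` with `x' = - m (x, y)`, the `v`-leaves the
graphs `y = y(x)` with `y' = m (x, y)`; they are orthogonal. The label of a `u`-leaf is its abscissa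
at `y = 0`, the label of a `v`-leaf its ordinate at `x = 0`. In the first quadrant the leaves with the
labels `a` and `b` shall meet if and only if `a * b < 1`.

The `v`-leaves of `m` are the `u`-leaves of the swapped field `sw m`, with the coordinates exchanged.
-/

set_option autoImplicit false
set_option linter.unusedVariables false

open scoped ContDiff

namespace Pool.Agent.NH97.OD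

open Set

/-- `P t p` is the abscissa at the height `t` of the leaf `x' = - m (x, y)` through `p`. -/
structure Leaf (m : ℝ × ℝ → ℝ) (P : ℝ → ℝ × ℝ → ℝ) : Prop where
  smooth : ContDiff ℝ ∞ (fun q : ℝ × (ℝ × ℝ) => P q.1 q.2)
  init : ∀ p : ℝ × ℝ, P p.2 p = p.1
  deriv : ∀ (t : ℝ) (p : ℝ × ℝ), HasDerivAt (fun t => P t p) (-m (P t p, t)) t
  trans : ∀ (s t : ℝ) (p : ℝ × ℝ), P t (P s p, s) = P t p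

/-- the swapped field -/
def sw (m : ℝ × ℝ → ℝ) : ℝ × ℝ → ℝ := fun q => -m (q.2, q.1)

/-- admissible fields: smooth, of absolute value at most one, with compact support in the open
triangle `0 < x`, `0 < y`, `x + y < σ` -/
structure Adm (σ : ℝ) (m : ℝ × ℝ → ℝ) : Prop where
  smooth : ContDiff ℝ ∞ m
  cpt : HasCompactSupport m
  le : ∀ p, |m p| ≤ 1
  supp : ∀ p ∈ tsupport m, 0 < p.1 ∧ 0 < p.2 ∧ p.1 + p.2 < σ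

/-- the closed triangle -/
def Tri (σ : ℝ) : Set (ℝ × ℝ) := {p | 0 ≤ p.1 ∧ 0 ≤ p.2 ∧ p.1 + p.2 ≤ σ}

/-- up to the line `x + y = σ` two leaves with the labels `a`, `b` do not meet if `a * b ≥ 1` -/
def Inv (σ : ℝ) (m : ℝ × ℝ → ℝ) : Prop :=
  ∀ P Q : ℝ → ℝ × ℝ → ℝ, Leaf m P → Leaf (sw m) Q → ∀ p ∈ Tri σ, P 0 p * Q 0 (p.2, p.1) < 1

/-! ### The jobs -/

/-- OD-1 FLOW: existence of the leaves. -/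
def S_FLOW : Prop := ∀ m : ℝ × ℝ → ℝ, ContDiff ℝ ∞ m → HasCompactSupport m → ∃ P, Leaf m P

/-- OD-2 UNIQ: uniqueness of the leaves, and vertical leaves. -/
def S_UNIQ : Prop :=
  (∀ (m : ℝ × ℝ → ℝ) (P : ℝ → ℝ × ℝ → ℝ), Leaf m P → ∀ (γ : ℝ → ℝ) (t0 t1 : ℝ), t0 ≤ t1 →
    (∀ t ∈ Icc t0 t1, HasDerivAt γ (-m (γ t, t)) t) → γ t1 = P t1 (γ t0, t0) ∧
      ∀ s : ℝ, P s (γ t1, t1) = P s (γ t0, t0)) ∧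
  ∀ (m : ℝ × ℝ → ℝ) (P : ℝ → ℝ × ℝ → ℝ), Leaf m P → ∀ x t0 t1 : ℝ, t0 ≤ t1 →
    (∀ t ∈ Icc t0 t1, m (x, t) = 0) → ∀ s : ℝ, P s (x, t1) = P s (x, t0)

/-- OD-3 GRAD: the gradient of the label is a positive multiple of `(1, m)`. -/
def S_GRAD : Prop := ∀ (m : ℝ × ℝ → ℝ) (P : ℝ → ℝ × ℝ → ℝ), Leaf m P → ∀ p : ℝ × ℝ,
  ∃ α : ℝ, 0 < α ∧ ∀ v : ℝ × ℝ, fderiv ℝ (fun p => P 0 p) p v = α * (v.1 + m p * v.2)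

/-- OD-4 POS: the leaves of an admissible field in the closed quadrant. -/
def S_POS : Prop := ∀ (σ : ℝ) (m : ℝ × ℝ → ℝ) (P : ℝ → ℝ × ℝ → ℝ), Adm σ m → Leaf m P →
  (∀ p : ℝ × ℝ, p.1 = 0 → ∀ t, P t p = 0) ∧ (∀ p : ℝ × ℝ, 0 < p.1 → ∀ t, 0 < P t p) ∧
  (∀ (p : ℝ × ℝ) (t1 t2 : ℝ), t1 ≤ t2 → P t1 p + t1 ≤ P t2 p + t2 ∧ P t2 p - t2 ≤ P t1 p - t1) ∧
  (∀ (t x y : ℝ) (x' : ℝ), x ≤ x' → P t (x, y) ≤ P t (x', y))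

/-- OD-5 LOC: the label of a point of the triangle depends only on the field in the triangle. -/
def S_LOC : Prop := ∀ (σ σ1 σ2 : ℝ) (m m' : ℝ × ℝ → ℝ) (P P' : ℝ → ℝ × ℝ → ℝ), Adm σ1 m →
  Adm σ2 m' → Leaf m P → Leaf m' P' → (∀ p ∈ Tri σ, m p = m' p) →
  ∀ p ∈ Tri σ, ∀ t ∈ Icc 0 p.2, P t p = P' t p

/-- OD-6 BAR: the barrier. A leaf cannot cross a band in which `m = - χ (x + y)`. -/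
def S_BAR : Prop := ∀ (m : ℝ × ℝ → ℝ) (P : ℝ → ℝ × ℝ → ℝ), Leaf m P → (∀ p, |m p| ≤ 1) →
  ∀ (κ η σ σ' : ℝ) (χ R : ℝ → ℝ), 0 < η →
  (∀ s ∈ Icc σ σ', 0 ≤ χ s ∧ χ s ≤ 1 ∧ 0 ≤ R s ∧ R s ≤ η / 2 ∧ HasDerivAt R (χ s - 1) s) →
  (∀ x y : ℝ, σ ≤ x + y → x + y ≤ σ' → κ + η / 5 ≤ x - y → x - y ≤ κ + 4 * η / 5 →
    m (x, y) = -χ (x + y)) →
  ∀ (p : ℝ × ℝ) (t : ℝ), p.2 ≤ t → σ ≤ p.1 + p.2 → P t p + t ≤ σ' → κ + 3 * η / 4 ≤ p.1 - p.2 →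
    κ + η / 4 ≤ P t p - t

/-- OD-7 CHI: cut-off functions. -/
def S_CHI : Prop := ∀ σ σ' ε : ℝ, σ < σ' → 0 < ε → ∃ χ R : ℝ → ℝ, ContDiff ℝ ∞ χ ∧
  (∀ s, 0 ≤ χ s ∧ χ s ≤ 1) ∧ HasCompactSupport χ ∧ tsupport χ ⊆ Ioo σ σ' ∧
  (∀ s, HasDerivAt R (χ s - 1) s) ∧ ∀ s ∈ Icc σ σ', 0 ≤ R s ∧ R s ≤ ε

/-- OD-8 NPR: the profile of the bands. -/
def S_NPR : Prop := ∀ (η : ℝ) (K : Finset ℝ), 0 < η → (∀ κ ∈ K, ∀ κ' ∈ K, κ ≠ κ' → 2 * η ≤ |κ - κ'|) →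
  ∃ N : ℝ → ℝ, ContDiff ℝ ∞ N ∧ (∀ c, |N c| ≤ 1) ∧
    (∀ κ ∈ K, ∀ c, κ + η / 5 ≤ c → c ≤ κ + 4 * η / 5 → N c = -1) ∧
    (∀ κ ∈ K, ∀ c, κ - 4 * η / 5 ≤ c → c ≤ κ - η / 5 → N c = 1) ∧
    ∀ c, (∀ κ ∈ K, η ≤ |c - κ|) → N c = 0

/-- OD-9 NODE: the choice of the nodes. `f` is the label of the `u`-leaf and `g` that of the `v`-leaf
through the point of the line `x + y = σ` with `x - y = c`. -/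
def S_NODE : Prop := ∀ (σ S : ℝ) (f g : ℝ → ℝ), 0 < σ → σ ≤ S → ContinuousOn f (Icc (-σ) σ) →
  ContinuousOn g (Icc (-σ) σ) → MonotoneOn f (Icc (-σ) σ) → AntitoneOn g (Icc (-σ) σ) →
  (∀ c ∈ Icc (-σ) σ, 0 ≤ f c ∧ 0 ≤ g c ∧ f c * g c < 1) → f (-σ) = 0 → g σ = 0 →
  ∀ cv cu : ℝ, -σ < cv → cv ≤ cu → cu < σ → f cu * g cv < 1 →
  ∃ (K : Finset ℝ) (η : ℝ), 0 < η ∧ (∀ κ ∈ K, |κ| + η < σ) ∧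
    (∀ κ ∈ K, ∀ κ' ∈ K, κ ≠ κ' → 2 * η ≤ |κ - κ'|) ∧
    (∀ κ ∈ K, κ + η < cv ∨ cu + η < κ) ∧
    ∀ c2 ∈ Icc (-σ) σ, ∀ c1 ∈ Icc (-σ) σ,
      (∀ κ ∈ K, ¬ (c2 + 3 * η / 4 ≤ κ ∧ κ ≤ c1 - 3 * η / 4)) →
      (if c1 = σ then S else f c1) * (if c2 = -σ then S else g c2) < 1

/-- the field of the next stage -/
def ext (m : ℝ × ℝ → ℝ) (χ N : ℝ → ℝ) : ℝ × ℝ → ℝ :=
  fun p => m p + χ (p.1 + p.2) * N (p.1 - p.2)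

/-- OD-16 EXT: the field of the next stage is admissible. -/
def S_EXT : Prop := ∀ (σ σ' θ : ℝ) (m : ℝ × ℝ → ℝ) (χ N : ℝ → ℝ), 0 < σ → σ < σ' → 0 < θ →
  Adm σ m → ContDiff ℝ ∞ χ → (∀ s, 0 ≤ χ s ∧ χ s ≤ 1) → HasCompactSupport χ →
  tsupport χ ⊆ Ioo σ σ' → ContDiff ℝ ∞ N → (∀ c, |N c| ≤ 1) → (∀ c, σ - θ ≤ |c| → N c = 0) →
  Adm σ' (ext m χ N) ∧ (∀ p : ℝ × ℝ, p.1 + p.2 ≤ σ → ext m χ N p = m p) ∧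
    ∀ p : ℝ × ℝ, σ ≤ p.1 + p.2 → ext m χ N p = χ (p.1 + p.2) * N (p.1 - p.2)

/-- the hypotheses on the next stage: `ext m χ N` is `m` below and `χ N` above the line
`x + y = σ`, with bands at the nodes `K` -/
structure Stg (σ σ' : ℝ) (m : ℝ × ℝ → ℝ) (χ R N : ℝ → ℝ) (K : Finset ℝ) (η : ℝ) : Prop where
  pos : 0 < σ
  lt : σ < σ'
  adm : Adm σ m
  adm' : Adm σ' (ext m χ N)
  below : ∀ p : ℝ × ℝ, p.1 + p.2 ≤ σ → ext m χ N p = m p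
  above : ∀ p : ℝ × ℝ, σ ≤ p.1 + p.2 → ext m χ N p = χ (p.1 + p.2) * N (p.1 - p.2)
  chi : ∀ s, 0 ≤ χ s ∧ χ s ≤ 1
  deriv : ∀ s, HasDerivAt R (χ s - 1) s
  rem : ∀ s ∈ Icc σ σ', 0 ≤ R s ∧ R s ≤ η / 2
  eta : 0 < η
  right : ∀ κ ∈ K, ∀ c, κ + η / 5 ≤ c → c ≤ κ + 4 * η / 5 → N c = -1
  left : ∀ κ ∈ K, ∀ c, κ - 4 * η / 5 ≤ c → c ≤ κ - η / 5 → N c = 1
  inside : ∀ κ ∈ K, |κ| + η < σ

/-- OD-17 INVS: no forbidden pair of leaves meets in the next stage. -/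
def S_INVS : Prop := ∀ (σ σ' : ℝ) (m : ℝ × ℝ → ℝ) (χ R N : ℝ → ℝ) (K : Finset ℝ) (η : ℝ)
  (P Q : ℝ → ℝ × ℝ → ℝ), Stg σ σ' m χ R N K η → Leaf m P → Leaf (sw m) Q → Inv σ m →
  (∀ c2 ∈ Icc (-σ) σ, ∀ c1 ∈ Icc (-σ) σ,
      (∀ κ ∈ K, ¬ (c2 + 3 * η / 4 ≤ κ ∧ κ ≤ c1 - 3 * η / 4)) →
      (if c1 = σ then σ' else P 0 ((σ + c1) / 2, (σ - c1) / 2)) *
        (if c2 = -σ then σ' else Q 0 ((σ - c2) / 2, (σ + c2) / 2)) < 1) →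
  Inv σ' (ext m χ N)

/-- OD-18 CRS: two leaves meet in the next stage. -/
def S_CRS : Prop := ∀ (σ σ' : ℝ) (m : ℝ × ℝ → ℝ) (χ R N : ℝ → ℝ) (K : Finset ℝ) (η : ℝ)
  (P Q P' Q' : ℝ → ℝ × ℝ → ℝ), Stg σ σ' m χ R N K η → Leaf m P → Leaf (sw m) Q →
  Leaf (ext m χ N) P' → Leaf (sw (ext m χ N)) Q' → 2 * σ ≤ σ' →
  ∀ cv cu : ℝ, -σ ≤ cv → cv ≤ cu → cu ≤ σ → (∀ c, cv ≤ c → c ≤ cu → N c = 0) →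
  ∃ p ∈ Tri σ', P' 0 p = P 0 ((σ + cu) / 2, (σ - cu) / 2) ∧
    Q' 0 (p.2, p.1) = Q 0 ((σ - cv) / 2, (σ + cv) / 2)

/-- OD-15 DOWN: the set of the pairs of labels in a triangle is closed downwards. -/
def S_DOWN : Prop := ∀ (σ σ1 : ℝ) (m : ℝ × ℝ → ℝ) (P Q : ℝ → ℝ × ℝ → ℝ), Adm σ1 m → Leaf m P →
  Leaf (sw m) Q → ∀ p ∈ Tri σ, ∀ a b : ℝ, 0 ≤ a → a ≤ P 0 p → 0 ≤ b → b ≤ Q 0 (p.2, p.1) →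
  ∃ q ∈ Tri σ, P 0 q = a ∧ Q 0 (q.2, q.1) = b

/-- OD-10 STAGE: the step of the construction. -/
def S_STAGE : Prop := ∀ (σ : ℝ) (m : ℝ × ℝ → ℝ), 0 < σ → Adm σ m → Inv σ m →
  ∀ a b : ℝ, 0 ≤ a → a < σ → 0 ≤ b → b < σ → a * b < 1 →
  ∃ m' : ℝ × ℝ → ℝ, Adm (2 * σ + 2) m' ∧ (∀ p ∈ Tri σ, m' p = m p) ∧ Inv (2 * σ + 2) m' ∧
    ∀ P Q : ℝ → ℝ × ℝ → ℝ, Leaf m' P → Leaf (sw m') Q →
      ∃ p ∈ Tri (2 * σ + 2), P 0 p = a ∧ Q 0 (p.2, p.1) = b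

/-- OD-11 SEQ: the sequence of the fields. -/
def S_SEQ : Prop := ∃ (σ : ℕ → ℝ) (m : ℕ → ℝ × ℝ → ℝ), StrictMono σ ∧ (∀ n : ℕ, (n : ℝ) < σ n) ∧
  (∀ n, Adm (σ n) (m n)) ∧ (∀ n k, n ≤ k → ∀ p ∈ Tri (σ n), m k p = m n p) ∧
  (∀ n, Inv (σ n) (m n)) ∧
  ∀ a b : ℝ, 0 ≤ a → 0 ≤ b → a * b < 1 → ∃ n, ∀ P Q : ℝ → ℝ × ℝ → ℝ, Leaf (m n) P →
    Leaf (sw (m n)) Q → ∃ p ∈ Tri (σ n), P 0 p = a ∧ Q 0 (p.2, p.1) = b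

/-- OD-12 QUAD: the label maps of the closed quadrant. `A`, `B` are the labels. -/
def S_QUAD : Prop := ∃ A B : ℝ × ℝ → ℝ,
  (∀ p : ℝ × ℝ, 0 < p.1 → 0 < p.2 → ContDiffAt ℝ ∞ A p ∧ ContDiffAt ℝ ∞ B p ∧
    ∃ α β μ : ℝ, 0 < α ∧ 0 < β ∧ ∀ v : ℝ × ℝ, fderiv ℝ A p v = α * (v.1 + μ * v.2) ∧
      fderiv ℝ B p v = β * (-μ * v.1 + v.2)) ∧
  (∀ r : ℝ, 0 < r → ∃ δ > 0, ∀ p : ℝ × ℝ, 0 ≤ p.1 → 0 ≤ p.2 → p.1 + p.2 ≤ r →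
    (p.1 < δ ∨ p.2 < δ) → A p = p.1 ∧ B p = p.2) ∧
  (∀ p : ℝ × ℝ, 0 < p.1 → 0 < p.2 → 0 < A p ∧ 0 < B p ∧ A p * B p < 1) ∧
  (∀ p q : ℝ × ℝ, 0 ≤ p.1 → 0 ≤ p.2 → 0 ≤ q.1 → 0 ≤ q.2 → A p = A q → B p = B q → p = q) ∧
  ∀ a b : ℝ, 0 ≤ a → 0 ≤ b → a * b < 1 → ∃ p : ℝ × ℝ, 0 ≤ p.1 ∧ 0 ≤ p.2 ∧ A p = a ∧ B p = b

/-- OD-13 PLANE: the labels of the whole plane. -/
def S_PLANE : Prop := ∃ F : ℝ × ℝ → ℝ × ℝ, ContDiff ℝ ∞ F ∧ Function.Injective F ∧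
  range F = {q : ℝ × ℝ | |q.1 * q.2| < 1} ∧
  ∀ p : ℝ × ℝ, ∃ α β μ : ℝ, 0 < α ∧ 0 < β ∧ ∀ v : ℝ × ℝ,
    fderiv ℝ F p v = (α * (v.1 + μ * v.2), β * (-μ * v.1 + v.2))

/-- the open unit disc -/
def Disc : Set (ℝ × ℝ) := {q | q.1 ^ 2 + q.2 ^ 2 < 1}

/-- OD-14 DISC: the theorem. There are positive smooth functions `E`, `G` on the open disc and a
smooth bijection `Φ` of the disc onto the plane which is an isometry for `E du² + G dv²` and the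
Euclidean metric. -/
def S_DISC : Prop := ∃ (E G : ℝ × ℝ → ℝ) (X Y : ℝ × ℝ → ℝ), ContDiffOn ℝ ∞ E Disc ∧
  ContDiffOn ℝ ∞ G Disc ∧ ContDiffOn ℝ ∞ X Disc ∧ ContDiffOn ℝ ∞ Y Disc ∧
  (∀ p ∈ Disc, 0 < E p ∧ 0 < G p) ∧ BijOn (fun p => (X p, Y p)) Disc univ ∧
  ∀ p ∈ Disc, ∀ v w : ℝ × ℝ, fderiv ℝ X p v * fderiv ℝ X p w + fderiv ℝ Y p v * fderiv ℝ Y p w =
    E p * v.1 * w.1 + G p * v.2 * w.2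

end Pool.Agent.NH97.OD
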